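import Pool.Agent.Lib.MP_80aaf5_lc.Defs

/-!
# Nondeterministic machines with few accepting witnesses
-/

namespace ESY

/-- The class `UP_{≤ k}` relative to `O`: `L` is accepted by a nondeterministic polynomial-time
machine for which no input has more than `k` accepting witnesses. -/
def InUPk (k : ℕ) (O : Oracle) (L : Set (List Bool)) : Prop :=
  ∃ (M : Machine) (c : ℕ),
    (∀ x, x ∈ L ↔ ∃ w : List Bool, w.length ≤ poly c x.length ∧
      AcceptsIn O M x w (poly c x.length)) ∧
    ∀ x, {w : List Bool | w.length ≤ poly c x.length ∧
      AcceptsIn O M x w (poly c x.length)}.encard ≤ k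

end ESY
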