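import Pool.Agent.Lib.MP_80aaf5_lc.Few.Core

/-!
# Generic parameters
-/

namespace ESY.Few

open ESY Set Topology Filter

theorem clopen_test (x : List Bool) : IsClopen {y | x ∈ Test (OO y)} := by
  have h1 : {y | x ∈ Test (OO y)} = ⋃ w ∈ {w : List Bool | w.length = x.length},
      ⋂ j ∈ {j : ℕ | j ≤ x.length}, {y | OO y (qstr x w j) = true} := by
    ext y
    simp only [mem_ofPred_eq, mem_iUnion, mem_iInter, exists_prop]
    rfl
  rw [h1]
  refine (List.finite_length_eq Bool x.length).isClopen_biUnion fun w _ => ?_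
  exact (Set.finite_le_nat x.length).isClopen_biInter fun j _ => clopen_OO _ _ le_rfl

/-- parameters for which the pair is not disjoint or the decider fails -/
def GoodD (i₁ i₂ : ℕ) (M : Machine) (T : ℕ → ℕ) : Set Par :=
  {y | (∃ q, Tr (OO y) i₁ q ∧ Tr (OO y) i₂ q) ∨
    ∃ x, ¬ (x ∈ Test (OO y) ↔ AcceptsIn (join (OO y) (sep y i₁ i₂)) M x [] (T x.length))}

/-- parameters for which the pair is not disjoint or the nondeterministic acceptor of the
complement fails -/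
def GoodN (i₁ i₂ : ℕ) (M : Machine) (T : ℕ → ℕ) : Set Par :=
  {y | (∃ q, Tr (OO y) i₁ q ∧ Tr (OO y) i₂ q) ∨
    ∃ x, ¬ (x ∈ (Test (OO y))ᶜ ↔ ∃ w : List Bool, w.length ≤ T x.length ∧
      AcceptsIn (join (OO y) (sep y i₁ i₂)) M x w (T x.length))}

theorem isOpen_goodD (i₁ i₂ : ℕ) (M : Machine) (T : ℕ → ℕ) : IsOpen (GoodD i₁ i₂ M T) := by
  have h1 : GoodD i₁ i₂ M T = (⋃ q, ({y | Tr (OO y) i₁ q} ∩ {y | Tr (OO y) i₂ q})) ∪
      ⋃ x, (({y | x ∈ Test (OO y)} ∩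
        {y | AcceptsIn (join (OO y) (sep y i₁ i₂)) M x [] (T x.length)}ᶜ) ∪
        ({y | x ∈ Test (OO y)}ᶜ ∩
        {y | AcceptsIn (join (OO y) (sep y i₁ i₂)) M x [] (T x.length)})) := by
    ext y
    simp only [GoodD, mem_ofPred_eq, mem_union, mem_iUnion, mem_inter_iff, mem_compl_iff]
    refine or_congr Iff.rfl (exists_congr fun x => ?_)
    tauto
  rw [h1]
  refine (isOpen_iUnion fun q => ((clopen_trO _ _).inter (clopen_trO _ _)).2).union
    (isOpen_iUnion fun x => ?_)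
  have h2 : IsClopen {y | AcceptsIn (join (OO y) (sep y i₁ i₂)) M x [] (T x.length)} :=
    clopen_accepts fun s _ => clopen_join _ _ s
  exact (((clopen_test x).inter h2.compl).union ((clopen_test x).compl.inter h2)).2

theorem isOpen_goodN (i₁ i₂ : ℕ) (M : Machine) (T : ℕ → ℕ) : IsOpen (GoodN i₁ i₂ M T) := by
  have h1 : GoodN i₁ i₂ M T = (⋃ q, ({y | Tr (OO y) i₁ q} ∩ {y | Tr (OO y) i₂ q})) ∪
      ⋃ x, (({y | x ∈ Test (OO y)} ∩ {y | ∃ w : List Bool, w.length ≤ T x.length ∧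
        AcceptsIn (join (OO y) (sep y i₁ i₂)) M x w (T x.length)}) ∪
        ({y | x ∈ Test (OO y)}ᶜ ∩ {y | ∃ w : List Bool, w.length ≤ T x.length ∧
        AcceptsIn (join (OO y) (sep y i₁ i₂)) M x w (T x.length)}ᶜ)) := by
    ext y
    simp only [GoodN, mem_ofPred_eq, mem_union, mem_iUnion, mem_inter_iff, mem_compl_iff]
    refine or_congr Iff.rfl (exists_congr fun x => ?_)
    generalize (∃ w : List Bool, w.length ≤ T x.length ∧
      AcceptsIn (join (OO y) (sep y i₁ i₂)) M x w (T x.length)) = P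
    tauto
  rw [h1]
  refine (isOpen_iUnion fun q => ((clopen_trO _ _).inter (clopen_trO _ _)).2).union
    (isOpen_iUnion fun x => ?_)
  have h2 : IsClopen {y | ∃ w : List Bool, w.length ≤ T x.length ∧
      AcceptsIn (join (OO y) (sep y i₁ i₂)) M x w (T x.length)} := by
    have h3 : {y | ∃ w : List Bool, w.length ≤ T x.length ∧
        AcceptsIn (join (OO y) (sep y i₁ i₂)) M x w (T x.length)} =
        ⋃ w ∈ {w : List Bool | w.length ≤ T x.length},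
          {y | AcceptsIn (join (OO y) (sep y i₁ i₂)) M x w (T x.length)} := by
      ext y
      simp only [mem_ofPred_eq, mem_iUnion, exists_prop]
    rw [h3]
    exact (List.finite_length_le Bool _).isClopen_biUnion fun w _ =>
      clopen_accepts fun s _ => clopen_join _ _ s
  exact (((clopen_test x).inter h2).union ((clopen_test x).compl.inter h2.compl)).2

/-- the data of the density argument exist -/
theorem exists_setup {i₁ i₂ : ℕ} {T : ℕ → ℕ} (hT : Sub T) {U : Set Par} (hU : IsOpen U)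
    (hne : U.Nonempty) (hdis : ∀ y ∈ U, ∀ q, ¬ (Tr (OO y) i₁ q ∧ Tr (OO y) i₂ q)) :
    ∃ s : Setup i₁ i₂, s.U = U ∧ s.m = s.n + 2 * T s.n ∧
      T s.n * (1 + s.m ^ 2 + (4 * s.B + 2)) < 2 ^ s.n := by
  obtain ⟨y₀, hy₀⟩ := hne
  obtain ⟨N, hN⟩ := exists_size hU hy₀
  let m : ℕ → ℕ := fun n => n + 2 * T n
  let ℓ : ℕ → ℕ := fun n => (poly (nu i₁).2 (m n) + i₁ + m n + 2) +
    (poly (nu i₂).2 (m n) + i₂ + m n + 2)
  have hm : Sub m := sub_add sub_id (sub_mul (sub_const 2) hT)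
  have hℓ : Sub ℓ := by
    refine sub_add (sub_add (sub_add (sub_add ?_ (sub_const _)) hm) (sub_const _))
      (sub_add (sub_add (sub_add ?_ (sub_const _)) hm) (sub_const _))
    · exact sub_poly hm _
    · exact sub_poly hm _
  have hb : Sub fun n => ℓ n * (1 + (2 * ℓ n) ^ 2) :=
    sub_mul hℓ (sub_add (sub_const 1) (sub_pow (sub_mul (sub_const 2) hℓ) 2))
  have h1 : Sub fun n => ℓ n * (1 + (2 * ℓ n) ^ 2) + ℓ n * (1 + (2 * ℓ n) ^ 2) + 1 :=
    sub_add (sub_add hb hb) (sub_const 1)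
  have h2 : Sub fun n => T n * (1 + m n ^ 2 + (4 * (ℓ n * (1 + (2 * ℓ n) ^ 2)) + 2)) + 1 :=
    sub_add (sub_mul hT (sub_add (sub_add (sub_const 1) (sub_pow hm 2))
      (sub_add (sub_mul (sub_const 4) hb) (sub_const 2)))) (sub_const 1)
  have hev := (((h1 1).and (h2 1)).and (eventually_ge_atTop
    (N + (poly (nu i₁).2 N + i₁ + N + 2) + (poly (nu i₂).2 N + i₂ + N + 2) + 1))).exists
  obtain ⟨n, ⟨hn1, hn2⟩, hn3⟩ := hev
  simp only [pow_one] at hn1 hn2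
  let s : Setup i₁ i₂ :=
    { U := U
      y₀ := y₀
      N := N
      hU := hN
      hdis := hdis
      n := n
      hN := by omega
      ℓ := ℓ n
      m := m n
      hℓ₁ := fun q hq => (stm_len_le i₁ q (m n) hq).trans (Nat.le_add_right _ _)
      hℓ₂ := fun q hq => (stm_len_le i₂ q (m n) hq).trans (Nat.le_add_left _ _)
      hN₁ := fun q hq => (stm_len_le i₁ q N hq).trans (by omega)
      hN₂ := fun q hq => (stm_len_le i₂ q N hq).trans (by omega)
      hB := Nat.lt_of_succ_le hn1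
      hn := by omega }
  exact ⟨s, rfl, rfl, Nat.lt_of_succ_le hn2⟩

theorem dense_goodD (i₁ i₂ : ℕ) (M : Machine) {T : ℕ → ℕ} (hT : Sub T) :
    Dense (GoodD i₁ i₂ M T) := by
  rw [dense_iff_inter_open]
  intro U hU hne
  by_contra hcon
  rw [not_nonempty_iff_eq_empty, eq_empty_iff_forall_notMem] at hcon
  have h0 : ∀ y ∈ U, y ∉ GoodD i₁ i₂ M T := fun y hy hg => hcon y ⟨hy, hg⟩
  obtain ⟨s, hs1, hs2, hs3⟩ := exists_setup hT hU hne
    fun y hy q h => h0 y hy (Or.inl ⟨q, h⟩)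
  have h1 : ∀ y ∈ s.U, ∀ x, (x ∈ Test (OO y) ↔
      AcceptsIn (join (OO y) (sep y i₁ i₂)) M x [] (T x.length)) := by
    intro y hy x
    by_contra h
    exact h0 y (hs1 ▸ hy) (Or.inr ⟨x, h⟩)
  obtain ⟨u, hu⟩ := s.good M [] (T s.n) (by simp; omega) hs3
  have h2 := h1 _ s.y_mem s.x₀
  have h3 := h1 _ (s.yw_mem u) s.x₀
  rw [s.x₀_len] at h2 h3
  exact s.not_test (h2.2 (hu.1 (h3.1 (s.test u))))

theorem dense_goodN (i₁ i₂ : ℕ) (M : Machine) {T : ℕ → ℕ} (hT : Sub T) :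
    Dense (GoodN i₁ i₂ M T) := by
  rw [dense_iff_inter_open]
  intro U hU hne
  by_contra hcon
  rw [not_nonempty_iff_eq_empty, eq_empty_iff_forall_notMem] at hcon
  have h0 : ∀ y ∈ U, y ∉ GoodN i₁ i₂ M T := fun y hy hg => hcon y ⟨hy, hg⟩
  obtain ⟨s, hs1, hs2, hs3⟩ := exists_setup hT hU hne
    fun y hy q h => h0 y hy (Or.inl ⟨q, h⟩)
  have h1 : ∀ y ∈ s.U, ∀ x, (x ∈ (Test (OO y))ᶜ ↔ ∃ w : List Bool, w.length ≤ T x.length ∧
      AcceptsIn (join (OO y) (sep y i₁ i₂)) M x w (T x.length)) := by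
    intro y hy x
    by_contra h
    exact h0 y (hs1 ▸ hy) (Or.inr ⟨x, h⟩)
  have h2 := h1 _ s.y_mem s.x₀
  rw [s.x₀_len] at h2
  obtain ⟨w, hw1, hw2⟩ := h2.1 s.not_test
  obtain ⟨u, hu⟩ := s.good M w (T s.n) (by
    have : max s.n w.length ≤ s.n + T s.n := max_le (by omega) (by omega)
    omega) hs3
  have h3 := h1 _ (s.yw_mem u) s.x₀
  rw [s.x₀_len] at h3
  exact h3.2 ⟨w, hw1, hu.2 hw2⟩ (s.test u)

/-- for generic parameters all the requirements hold -/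
theorem exists_generic (T : ℕ → ℕ → ℕ) (hT : Subexponential T) :
    ∃ y : Par, ∀ i₁ i₂ M c, y ∈ GoodD i₁ i₂ M (T c) ∧ y ∈ GoodN i₁ i₂ M (T c) := by
  have h1 : Dense (⋂ p : ℕ × ℕ × Machine × ℕ,
      GoodD p.1 p.2.1 p.2.2.1 (T p.2.2.2) ∩ GoodN p.1 p.2.1 p.2.2.1 (T p.2.2.2)) := by
    refine dense_iInter_of_isOpen (fun p => (isOpen_goodD _ _ _ _).inter (isOpen_goodN _ _ _ _))
      fun p => ?_
    exact (dense_goodD _ _ _ (hT _)).inter_of_isOpen_left (dense_goodN _ _ _ (hT _))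
      (isOpen_goodD _ _ _ _)
  obtain ⟨y, hy⟩ := h1.nonempty
  refine ⟨y, fun i₁ i₂ M c => ?_⟩
  exact mem_iInter.1 hy (i₁, i₂, M, c)

theorem inNP_iff (O : Oracle) (L : Set (List Bool)) :
    InNP O L ↔ ∃ e, ∀ x, x ∈ L ↔ Tr O e x := by
  constructor
  · rintro ⟨M, c, h⟩
    obtain ⟨e, he⟩ := nu_surj (M, c)
    refine ⟨e, fun x => ?_⟩
    rw [h x]
    unfold Tr tb
    rw [he]
  · rintro ⟨e, h⟩
    exact ⟨(nu e).1, (nu e).2, h⟩

/-- the strong conjecture holds for generic parameters -/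
theorem strong_of_good {T : ℕ → ℕ → ℕ} {y : Par}
    (hy : ∀ i₁ i₂ M c, y ∈ GoodD i₁ i₂ M (T c) ∧ y ∈ GoodN i₁ i₂ M (T c)) :
    StrongESYRel T (OO y) := by
  rintro A B ⟨-, -, hA, hB, hAB⟩
  obtain ⟨a, ha⟩ := (inNP_iff _ _).1 hA
  obtain ⟨b, hb⟩ := (inNP_iff _ _).1 hB
  have hdis : ¬ ∃ q, Tr (OO y) a q ∧ Tr (OO y) b q := by
    rintro ⟨q, h1, h2⟩
    exact Set.disjoint_left.1 hAB ((ha q).2 h1) ((hb q).2 h2)
  refine ⟨sep y a b, ⟨fun x hx => ?_, fun x hx => ?_⟩, Test (OO y), inNP_test _, ?_, ?_⟩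
  · exact if_pos ((ha x).1 hx)
  · unfold sep
    rw [if_neg fun h => hdis ⟨x, h, (hb x).1 hx⟩, if_pos ((hb x).1 hx)]
  · rintro ⟨M, c, h⟩
    rcases (hy a b M c).1 with h1 | ⟨x, h1⟩
    · exact hdis h1
    · exact h1 (h x)
  · rintro ⟨M, c, h⟩
    rcases (hy a b M c).2 with h1 | ⟨x, h1⟩
    · exact hdis h1
    · exact h1 (h x)

end ESY.Few
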