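import Pool.Agent.Lib.MP_80aaf5_lc.Few.Closure

/-!
# The base world and its perturbations
-/

namespace ESY.Few

open ESY

/-- the label of `w` as a pad of the statement `(e, x)` -/
noncomputable def lab (w : List Bool) (e : ℕ) (x : List Bool) : List Bool :=
  w ++ List.replicate ((stm e x).length ^ 2 - w.length) false

theorem lab_length {w : List Bool} {e : ℕ} {x : List Bool} (h : w.length < (stm e x).length) :
    (lab w e x).length = (stm e x).length ^ 2 := by
  have : (stm e x).length ≤ (stm e x).length ^ 2 := Nat.le_self_pow (by norm_num) _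
  simp only [lab, List.length_append, List.length_replicate]
  omega

theorem lab_inj {w w' : List Bool} {e : ℕ} {x : List Bool} (hl : w.length = w'.length)
    (h : lab w e x = lab w' e x) : w = w' := (List.append_inj h hl).1

/-- the string `r` bears the label `w` -/
def Hit (x₀ w r : List Bool) : Prop :=
  (∃ j ≤ x₀.length, r = qstr x₀ w j) ∨
    ∃ e x, x₀.length < (stm e x).length ∧ r = false :: cs (lab w e x) (stm e x)

theorem hit_unique {x₀ w w' r : List Bool} (hw : w.length = x₀.length) (hw' : w'.length = x₀.length)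
    (h : Hit x₀ w r) (h' : Hit x₀ w' r) : w = w' := by
  rcases h with ⟨j, -, h⟩ | ⟨e, x, -, h⟩ <;> rcases h' with ⟨j', -, h'⟩ | ⟨e', x', -, h'⟩
  · exact (qstr_inj hw rfl hw' (h.symm.trans h')).2.1
  · rw [h, qstr_cons] at h'
    exact absurd (List.cons.inj h').1 (by decide)
  · rw [h', qstr_cons] at h
    exact absurd (List.cons.inj h).1 (by decide)
  · have h1 := (List.cons.inj (h.symm.trans h')).2
    obtain ⟨h2, h3⟩ := cs_inj h1
    obtain ⟨rfl, rfl⟩ := stm_inj h3
    exact lab_inj (hw.trans hw'.symm) h2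

/-- no string of `S` bears the label `w` -/
def Free (x₀ w : List Bool) (S : Set (List Bool)) : Prop := ∀ r ∈ S, ¬ Hit x₀ w r

/-- queries of the run of the statement `(e, x)` with witness `u` -/
noncomputable def qs (O : Oracle) (e : ℕ) (x u : List Bool) : Finset (List Bool) :=
  (asked O (nu e).1 (tb e x) (start (nu e).1 x u)).toFinset

theorem qs_bound (O : Oracle) (e : ℕ) (x u : List Bool) (hu : u.length ≤ tb e x) :
    (qs O e x u).card ≤ (stm e x).length ∧ ∀ r ∈ qs O e x u, r.length ≤ 2 * (stm e x).length := by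
  have h2 := tb_lt_stm e x
  have h3 := x_lt_stm e x
  constructor
  · exact ((List.toFinset_card_le _).trans (asked_card O _ _ _)).trans h2.le
  · intro r hr
    have h1 := asked_start_len O _ _ _ _ r (List.mem_toFinset.1 hr)
    have : max x.length u.length ≤ (stm e x).length := max_le h3.le (hu.trans h2.le)
    omega

open Classical in
/-- a chosen witness -/
noncomputable def wit (O : Oracle) (e : ℕ) (x : List Bool) : List Bool :=
  if h : Tr O e x then h.choose else []

theorem wit_spec {O : Oracle} {e : ℕ} {x : List Bool} (h : Tr O e x) :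
    (wit O e x).length ≤ tb e x ∧ AcceptsIn O (nu e).1 x (wit O e x) (tb e x) := by
  unfold wit
  rw [dif_pos h]
  exact h.choose_spec

theorem wit_len (O : Oracle) (e : ℕ) (x : List Bool) : (wit O e x).length ≤ tb e x := by
  by_cases h : Tr O e x
  · exact (wit_spec h).1
  · unfold wit
    rw [dif_neg h]
    simp

/-! ### the base world -/

/-- the base world: no block of `x₀` is in the free part -/
structure Base : Type where
  /-- the input -/
  x₀ : List Bool
  pd : Pads
  D : Oracle
  hp : Len pd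
  hD : ∀ (w : List Bool) (j : ℕ) (s : List Bool), w.length = x₀.length →
    true :: s = qstr x₀ w j → D s = false

namespace Base

variable (b : Base)

/-- the oracle of the base world -/
noncomputable def O : Oracle := world b.pd b.D

theorem isW : IsWorld b.pd b.D b.O := isWorld b.hp _

/-- query sets of the base world -/
noncomputable def Q (e : ℕ) (x : List Bool) : Finset (List Bool) := qs b.O e x (wit b.O e x)

theorem qb : QB b.Q := fun e x => qs_bound _ _ _ _ (wit_len _ _ _)

/-- the statement is affected by the label `w` -/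
def Aff (w : List Bool) (e : ℕ) (x : List Bool) : Prop :=
  ¬ (Tr b.O e x ∧ Free b.x₀ w (clos b.Q b.O (b.Q e x)))

open Classical in
/-- the pads of the perturbed world -/
noncomputable def pdw (w : List Bool) : Pads := fun e x i =>
  if (stm e x).length ≤ b.x₀.length ∨ ¬ b.Aff w e x then b.pd e x i else lab w e x

open Classical in
/-- the free part, with the blocks of the words in `W` -/
noncomputable def Dw (W : Set (List Bool)) : Oracle := fun s =>
  if ∃ w ∈ W, ∃ j ≤ b.x₀.length, true :: s = qstr b.x₀ w j then true else b.D s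

variable {b} {w : List Bool}

theorem pdw_short {e : ℕ} {x : List Bool} (h : (stm e x).length ≤ b.x₀.length) (i : Bool) :
    b.pdw w e x i = b.pd e x i := if_pos (Or.inl h)

theorem pdw_unaff {e : ℕ} {x : List Bool} (h : ¬ b.Aff w e x) (i : Bool) :
    b.pdw w e x i = b.pd e x i := if_pos (Or.inr h)

theorem pdw_aff {e : ℕ} {x : List Bool} (h : b.Aff w e x) (hl : b.x₀.length < (stm e x).length)
    (i : Bool) : b.pdw w e x i = lab w e x :=
  if_neg (not_or.2 ⟨not_le.2 hl, not_not.2 h⟩)

theorem pdw_len (hw : w.length = b.x₀.length) : Len (b.pdw w) := by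
  intro e x i
  by_cases h1 : (stm e x).length ≤ b.x₀.length
  · rw [pdw_short h1]
    exact b.hp e x i
  · by_cases h2 : b.Aff w e x
    · rw [pdw_aff h2 (not_le.1 h1)]
      exact lab_length (by omega)
    · rw [pdw_unaff h2]
      exact b.hp e x i

theorem Dw_pos {W : Set (List Bool)} {s : List Bool}
    (h : ∃ w ∈ W, ∃ j ≤ b.x₀.length, true :: s = qstr b.x₀ w j) : b.Dw W s = true := if_pos h

theorem Dw_neg {W : Set (List Bool)} {s : List Bool}
    (h : ¬ ∃ w ∈ W, ∃ j ≤ b.x₀.length, true :: s = qstr b.x₀ w j) : b.Dw W s = b.D s := if_neg h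

theorem Dw_short {W : Set (List Bool)} (hW : ∀ w ∈ W, w.length = b.x₀.length) {s : List Bool}
    (h : s.length < 2 * b.x₀.length) : b.Dw W s = b.D s := by
  refine Dw_neg ?_
  rintro ⟨w, hw, j, -, h1⟩
  have := congrArg List.length h1
  rw [qstr_length _ _ _ (hW w hw), List.length_cons] at this
  omega

variable (b w) in
/-- the perturbed oracle -/
noncomputable def Ow : Oracle := world (b.pdw w) (b.Dw {w})

theorem isWw (hw : w.length = b.x₀.length) : IsWorld (b.pdw w) (b.Dw {w}) (b.Ow w) :=
  isWorld (pdw_len hw) _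

theorem agree_w (hw : w.length = b.x₀.length) : Agree (2 * b.x₀.length) b.O (b.Ow w) :=
  short_agree b.hp (pdw_len hw) b.isW (isWw hw) _ (fun _ _ i h => (pdw_short h i).symm)
    fun _ hs => (Dw_short (by rintro _ rfl; exact hw) hs).symm

theorem tr_short {O O' : Oracle} {n : ℕ} (h : Agree (2 * n) O O') {e : ℕ} {x : List Bool}
    (hs : (stm e x).length ≤ n) : Tr O e x ↔ Tr O' e x :=
  tr_congr (h.mono (by omega))

theorem sup_base : ∀ e x, Tr b.O e x → ∃ u : List Bool, u.length ≤ tb e x ∧
    AcceptsIn b.O (nu e).1 x u (tb e x) ∧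
    ∀ s ∈ asked b.O (nu e).1 (tb e x) (start (nu e).1 x u), s ∈ b.Q e x :=
  fun _ _ h => ⟨_, (wit_spec h).1, (wit_spec h).2, fun _ hs => List.mem_toFinset.2 hs⟩

/-- the perturbed oracle agrees with the base on closed sets without the label -/
theorem agree_free (hw : w.length = b.x₀.length) {S : Set (List Bool)}
    (hS : Closed b.Q b.O S) (hf : Free b.x₀ w S) : ∀ r ∈ S, b.Ow w r = b.O r := by
  refine transfer b.hp b.isW (isWw hw) sup_base b.qb hS ?_ ?_ ?_
  · intro s hs
    refine Dw_neg ?_
    rintro ⟨w', rfl, j, hj, h1⟩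
    exact hf _ hs (Or.inl ⟨j, hj, h1⟩)
  · intro e x i hs ht
    refine ⟨i, ?_⟩
    refine pdw_unaff (not_not.2 ⟨ht, ?_⟩) i
    rintro r ⟨r₀, h0, h1⟩
    refine hf r (h1.mem_closed hS (hS e x _ hs ?_ r₀ h0))
    exact (b.isW.code_iff _ _ _).2 ⟨⟨i, rfl⟩, ht⟩
  · intro e x i hs ht
    by_cases h1 : (stm e x).length ≤ b.x₀.length
    · rw [pdw_short h1]
      exact (b.isW.code_iff _ _ _).2 ⟨⟨i, rfl⟩, (tr_short (agree_w hw) h1).2 ht⟩
    · by_cases h2 : b.Aff w e x
      · rw [pdw_aff h2 (not_le.1 h1)] at hs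
        exact absurd (Or.inr ⟨e, x, not_le.1 h1, rfl⟩) (hf _ hs)
      · rw [pdw_unaff h2]
        exact (b.isW.code_iff _ _ _).2 ⟨⟨i, rfl⟩, (not_not.1 h2).1⟩

theorem unaff_agree (hw : w.length = b.x₀.length) {e : ℕ} {x : List Bool} (h : ¬ b.Aff w e x) :
    ∀ r ∈ clos b.Q b.O (b.Q e x), b.Ow w r = b.O r :=
  agree_free hw (closed_clos _ _ _) (not_not.1 h).2

theorem unaff_accepts (hw : w.length = b.x₀.length) {e : ℕ} {x : List Bool} (h : ¬ b.Aff w e x) :
    AcceptsIn (b.Ow w) (nu e).1 x (wit b.O e x) (tb e x) := by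
  refine (accepts_congr fun s hs => ?_).2 (wit_spec (not_not.1 h).1).2
  exact unaff_agree hw h s (subset_clos (List.mem_toFinset.2 hs))

theorem unaff_tr (hw : w.length = b.x₀.length) {e : ℕ} {x : List Bool} (h : ¬ b.Aff w e x) :
    Tr (b.Ow w) e x := ⟨_, wit_len _ _ _, unaff_accepts hw h⟩

open Classical in
variable (b w) in
/-- query sets of the perturbed world -/
noncomputable def Qw (e : ℕ) (x : List Bool) : Finset (List Bool) :=
  if b.Aff w e x then qs (b.Ow w) e x (wit (b.Ow w) e x) else b.Q e x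

theorem qbw : QB (b.Qw w) := by
  intro e x
  unfold Qw
  split_ifs
  · exact qs_bound _ _ _ _ (wit_len _ _ _)
  · exact b.qb e x

theorem Qw_unaff {e : ℕ} {x : List Bool} (h : ¬ b.Aff w e x) : b.Qw w e x = b.Q e x := if_neg h

theorem asked_congr {O O' : Oracle} {M : Machine} : ∀ (t : ℕ) (c : Cfg M),
    (∀ s ∈ asked O M t c, O' s = O s) → asked O' M t c = asked O M t c := by
  intro t
  induction t with
  | zero => intro c _; rfl
  | succ t ih =>
    intro c h
    simp only [asked]
    rw [step_congr (fun s hs => h s (List.mem_append_left _ hs)),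
      ih _ fun s hs => h s (List.mem_append_right _ hs)]

theorem sup_w (hw : w.length = b.x₀.length) : ∀ e x, Tr (b.Ow w) e x →
    ∃ u : List Bool, u.length ≤ tb e x ∧ AcceptsIn (b.Ow w) (nu e).1 x u (tb e x) ∧
    ∀ s ∈ asked (b.Ow w) (nu e).1 (tb e x) (start (nu e).1 x u), s ∈ b.Qw w e x := by
  intro e x ht
  by_cases h : b.Aff w e x
  · unfold Qw
    rw [if_pos h]
    exact ⟨_, (wit_spec ht).1, (wit_spec ht).2, fun _ hs => List.mem_toFinset.2 hs⟩
  · rw [Qw_unaff h]
    refine ⟨_, wit_len b.O e x, unaff_accepts hw h, fun s hs => ?_⟩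
    rw [asked_congr _ _ fun s hs => unaff_agree hw h s (subset_clos (List.mem_toFinset.2 hs))] at hs
    exact List.mem_toFinset.2 hs

/-- A closed set of the perturbed world that contains a positive code of an unaffected statement
contains the whole base closure of the statement. -/
theorem base_closure (hw : w.length = b.x₀.length) {S : Set (List Bool)}
    (hS : Closed (b.Qw w) (b.Ow w) S) {e : ℕ} {x : List Bool} (h : ¬ b.Aff w e x)
    (hq : ∀ r ∈ b.Q e x, r ∈ S) : ∀ r ∈ clos b.Q b.O (b.Q e x), r ∈ S := by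
  rintro r ⟨r₀, h0, h1⟩
  induction h1 with
  | base => exact hq _ h0
  | @step e' x' z' r' h2 h3 h4 ih =>
    have h5 : b.Ow w (false :: cs z' (stm e' x')) = true :=
      (unaff_agree hw h _ ⟨r₀, h0, h2⟩).trans h3
    refine hS e' x' z' ih h5 r' ?_
    rw [Qw_unaff ?_]
    · exact h4
    · refine not_not.2 ⟨((b.isW.code_iff _ _ _).1 h3).2, ?_⟩
      rintro s ⟨s₀, h6, h7⟩
      exact (not_not.1 h).2 s ⟨r₀, h0, (h2.step h3 h6).trans h7⟩

end Base

end ESY.Few
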