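import Pool.Agent.Lib.MP_80aaf5_lc.Few.World

/-!
# The space of parameters; continuity
-/

namespace ESY.Few

open ESY Set Topology

/-! ### clopen conditions -/

section

variable {Y : Type*} [TopologicalSpace Y]

theorem clopen_of_local {P : Y → Prop}
    (h : ∀ y₀, ∃ V : Set Y, IsOpen V ∧ y₀ ∈ V ∧ ∀ y ∈ V, (P y ↔ P y₀)) : IsClopen {y | P y} := by
  have h1 : ∀ Q : Y → Prop, (∀ y₀, ∃ V : Set Y, IsOpen V ∧ y₀ ∈ V ∧ ∀ y ∈ V, (Q y ↔ Q y₀)) →
      IsOpen {y | Q y} := by
    intro Q hQ
    rw [isOpen_iff_mem_nhds]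
    intro y₀ hy
    obtain ⟨V, hV, hyV, hVQ⟩ := hQ y₀
    filter_upwards [hV.mem_nhds hyV] with y hyy
    exact (hVQ y hyy).2 hy
  refine ⟨⟨?_⟩, h1 P h⟩
  refine h1 (fun y => ¬ P y) fun y₀ => ?_
  obtain ⟨V, hV, hyV, hVP⟩ := h y₀
  exact ⟨V, hV, hyV, fun y hy => not_congr (hVP y hy)⟩

theorem local_of_clopen {P : Y → Prop} (h : IsClopen {y | P y}) (y₀ : Y) :
    ∃ V : Set Y, IsOpen V ∧ y₀ ∈ V ∧ ∀ y ∈ V, (P y ↔ P y₀) := by
  by_cases hy : P y₀
  · exact ⟨{y | P y}, h.2, hy, fun y hyy => ⟨fun _ => hy, fun _ => hyy⟩⟩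
  · exact ⟨{y | P y}ᶜ, h.compl.2, hy, fun y hyy => ⟨fun h' => absurd h' hyy, fun h' => absurd h' hy⟩⟩

theorem clopen_accepts {Of : Y → Oracle} {M : Machine} {x w : List Bool} {t : ℕ}
    (h : ∀ s : List Bool, s.length ≤ max x.length w.length + t → IsClopen {y | Of y s = true}) :
    IsClopen {y | AcceptsIn (Of y) M x w t} := by
  classical
  refine clopen_of_local fun y₀ => ?_
  have h1 : ∀ s : List Bool, ∃ V : Set Y, IsOpen V ∧ y₀ ∈ V ∧
      (s.length ≤ max x.length w.length + t → ∀ y ∈ V, Of y s = Of y₀ s) := by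
    intro s
    by_cases hs : s.length ≤ max x.length w.length + t
    · obtain ⟨V, hV, hy, hVP⟩ := local_of_clopen (h s hs) y₀
      exact ⟨V, hV, hy, fun _ y hyy => Bool.eq_iff_iff.2 (hVP y hyy)⟩
    · exact ⟨univ, isOpen_univ, mem_univ _, fun h' => absurd h' hs⟩
  choose V hV hyV hVP using h1
  refine ⟨⋂ s ∈ (asked (Of y₀) M t (start M x w)).toFinset, V s,
    isOpen_biInter_finset fun s _ => hV s, by simpa using fun s _ => hyV s, fun y hy => ?_⟩
  refine accepts_congr fun s hs => ?_
  refine hVP s (asked_start_len _ _ _ _ _ s hs) y ?_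
  simp only [mem_iInter] at hy
  exact hy s (List.mem_toFinset.2 hs)

theorem clopen_tr {Of : Y → Oracle} {e : ℕ} {x : List Bool}
    (h : ∀ s : List Bool, s.length ≤ 2 * (stm e x).length → IsClopen {y | Of y s = true}) :
    IsClopen {y | Tr (Of y) e x} := by
  have h1 : {y | Tr (Of y) e x} = ⋃ w ∈ {w : List Bool | w.length ≤ tb e x},
      {y | AcceptsIn (Of y) (nu e).1 x w (tb e x)} := by
    ext y
    simp only [mem_ofPred_eq, mem_iUnion, exists_prop]
    rfl
  rw [h1]
  refine (List.finite_length_le Bool (tb e x)).isClopen_biUnion fun w hw => clopen_accepts ?_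
  intro s hs
  refine h s (hs.trans ?_)
  have h2 := tb_lt_stm e x
  have h3 := x_lt_stm e x
  have hw' : w.length ≤ tb e x := hw
  have : max x.length w.length ≤ (stm e x).length := max_le h3.le (hw'.trans h2.le)
  omega

end

/-! ### the space -/

/-- indices: bits of pads, values of the free part, values of the separators -/
abbrev Idx : Type := (ℕ × List Bool × Bool × ℕ) ⊕ (List Bool ⊕ (ℕ × ℕ × List Bool))

/-- the parameters -/
abbrev Par : Type := Idx → Bool

/-- size of an index -/
noncomputable def sz : Idx → ℕ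
  | .inl (e, x, _, _) => (stm e x).length
  | .inr (.inl w) => w.length
  | .inr (.inr (_, _, q)) => q.length

/-- pads of a parameter -/
noncomputable def pdOf (y : Par) : Pads :=
  fun e x i => List.ofFn fun j : Fin ((stm e x).length ^ 2) => y (.inl (e, x, i, j))

/-- free part of a parameter -/
def DOf (y : Par) : Oracle := fun w => y (.inr (.inl w))

/-- prescribed separators of a parameter -/
def sgOf (y : Par) (a b : ℕ) : Oracle := fun q => y (.inr (.inr (a, b, q)))

theorem len_pdOf (y : Par) : Len (pdOf y) := fun e x i => by simp [pdOf]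

/-- the oracle of a parameter -/
noncomputable def OO (y : Par) : Oracle := world (pdOf y) (DOf y)

theorem isWorld_OO (y : Par) : IsWorld (pdOf y) (DOf y) (OO y) := isWorld (len_pdOf y) _

/-- a parameter with given data; the irrelevant bits are those of `y₀` -/
noncomputable def mkPar (y₀ : Par) (pd : Pads) (D : Oracle) (sg : ℕ → ℕ → Oracle) : Par
  | .inl (e, x, i, j) =>
    if j < (stm e x).length ^ 2 then (pd e x i).getD j false else y₀ (.inl (e, x, i, j))
  | .inr (.inl w) => D w
  | .inr (.inr (a, b, q)) => sg a b q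

theorem pdOf_mk (y₀ : Par) {pd : Pads} (hp : Len pd) (D : Oracle) (sg : ℕ → ℕ → Oracle) :
    pdOf (mkPar y₀ pd D sg) = pd := by
  funext e x i
  refine List.ext_getElem (by rw [len_pdOf, hp e x i]) fun j h1 h2 => ?_
  rw [hp e x i] at h2
  simp only [pdOf, mkPar, List.getElem_ofFn, h2, if_true]
  exact List.getD_eq_getElem _ _ _

theorem DOf_mk (y₀ : Par) (pd : Pads) (D : Oracle) (sg : ℕ → ℕ → Oracle) :
    DOf (mkPar y₀ pd D sg) = D := rfl

theorem sgOf_mk (y₀ : Par) (pd : Pads) (D : Oracle) (sg : ℕ → ℕ → Oracle) :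
    sgOf (mkPar y₀ pd D sg) = sg := rfl

theorem OO_mk (y₀ : Par) {pd : Pads} (hp : Len pd) (D : Oracle) (sg : ℕ → ℕ → Oracle) :
    OO (mkPar y₀ pd D sg) = world pd D := by
  rw [OO, pdOf_mk y₀ hp, DOf_mk]

theorem mk_agree (y₀ : Par) (pd : Pads) (D : Oracle) (sg : ℕ → ℕ → Oracle) (N : ℕ)
    (h1 : ∀ e x i, (stm e x).length ≤ N → pd e x i = pdOf y₀ e x i)
    (h2 : ∀ w : List Bool, w.length ≤ N → D w = DOf y₀ w)
    (h3 : ∀ a b (q : List Bool), q.length ≤ N → sg a b q = sgOf y₀ a b q) :
    ∀ i, sz i ≤ N → mkPar y₀ pd D sg i = y₀ i := by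
  intro i hi
  match i, hi with
  | .inl (e, x, i, j), hi =>
    simp only [mkPar]
    by_cases hj : j < (stm e x).length ^ 2
    · have hj' : j < (pdOf y₀ e x i).length := by rw [len_pdOf]; exact hj
      rw [if_pos hj, h1 e x i hi, List.getD_eq_getElem _ _ hj']
      simp only [pdOf, List.getElem_ofFn]
    · rw [if_neg hj]
  | .inr (.inl w), hi => exact h2 w hi
  | .inr (.inr (a, b, q)), hi => exact h3 a b q hi

theorem exists_size {U : Set Par} (hU : IsOpen U) {y₀ : Par} (hy : y₀ ∈ U) :
    ∃ N, ∀ y : Par, (∀ i, sz i ≤ N → y i = y₀ i) → y ∈ U := by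
  obtain ⟨I, u, h1, h2⟩ := isOpen_pi_iff.1 hU y₀ hy
  refine ⟨I.sup sz, fun y h => h2 fun i hi => ?_⟩
  rw [h i (Finset.le_sup (Finset.mem_coe.1 hi))]
  exact (h1 i (Finset.mem_coe.1 hi)).2

theorem clopen_coord (i : Idx) : IsClopen {y : Par | y i = true} :=
  (isClopen_discrete ({true} : Set Bool)).preimage (continuous_apply i)

theorem clopen_pdOf (e : ℕ) (x : List Bool) (i : Bool) (z : List Bool) :
    IsClopen {y : Par | pdOf y e x i = z} := by
  have h : Continuous fun (y : Par) (j : Fin ((stm e x).length ^ 2)) => y (.inl (e, x, i, j)) :=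
    continuous_pi fun j => continuous_apply _
  exact (isClopen_discrete {f : Fin ((stm e x).length ^ 2) → Bool | List.ofFn f = z}).preimage h

theorem clopen_OO : ∀ (m : ℕ) (r : List Bool), r.length ≤ m → IsClopen {y | OO y r = true} := by
  intro m
  induction m with
  | zero =>
    intro r hr
    have : r = [] := List.length_eq_zero_iff.1 (Nat.le_zero.1 hr)
    subst this
    simp only [(isWorld_OO _).nil]
    simp [isClopen_empty]
  | succ m ih =>
    intro r hr
    match r, hr with
    | [], _ =>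
      simp only [(isWorld_OO _).nil]
      simp [isClopen_empty]
    | true :: w, _ =>
      simp only [(isWorld_OO _).free]
      exact clopen_coord _
    | false :: r', hr =>
      by_cases hc : ∃ z e x, z.length = (stm e x).length ^ 2 ∧ r' = cs z (stm e x)
      · obtain ⟨z, e, x, hz, rfl⟩ := hc
        have h1 : {y | OO y (false :: cs z (stm e x)) = true} =
            ({y | pdOf y e x false = z} ∪ {y | pdOf y e x true = z}) ∩ {y | Tr (OO y) e x} := by
          ext y
          simp only [mem_ofPred_eq, (isWorld_OO y).code_iff, mem_inter_iff, mem_union, Bool.exists_bool]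
          tauto
        rw [h1]
        refine ((clopen_pdOf _ _ _ _).union (clopen_pdOf _ _ _ _)).inter (clopen_tr fun s hs => ?_)
        refine ih s ?_
        rw [List.length_cons, cs_length, hz] at hr
        have := two_stm_lt e x
        omega
      · have h1 : {y | OO y (false :: r') = true} = ∅ := by
          ext y
          simp only [mem_ofPred_eq, (isWorld_OO y).code, mem_empty_iff_false, iff_false]
          rintro ⟨e, x, i, h2, -⟩
          exact hc ⟨_, e, x, len_pdOf y e x i, h2⟩
        rw [h1]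
        exact isClopen_empty

theorem clopen_trO (e : ℕ) (x : List Bool) : IsClopen {y | Tr (OO y) e x} :=
  clopen_tr fun s _ => clopen_OO _ s le_rfl

open Classical in
/-- the separator of the pair of languages accepted by machines `a`, `b` -/
noncomputable def sep (y : Par) (a b : ℕ) : Oracle := fun q =>
  if Tr (OO y) a q then true else if Tr (OO y) b q then false else sgOf y a b q

theorem clopen_sep (a b : ℕ) (q : List Bool) : IsClopen {y | sep y a b q = true} := by
  have h1 : {y | sep y a b q = true} =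
      {y | Tr (OO y) a q} ∪ ({y | Tr (OO y) b q}ᶜ ∩ {y | y (.inr (.inr (a, b, q))) = true}) := by
    ext y
    simp only [mem_ofPred_eq, mem_union, mem_inter_iff, mem_compl_iff, sep, sgOf]
    split_ifs <;> simp_all
  rw [h1]
  exact (clopen_trO a q).union ((clopen_trO b q).compl.inter (clopen_coord _))

theorem clopen_join (a b : ℕ) (r : List Bool) :
    IsClopen {y | join (OO y) (sep y a b) r = true} := by
  match r with
  | [] => simp [join, isClopen_empty]
  | false :: r => exact clopen_OO _ r le_rfl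
  | true :: r => exact clopen_sep a b r

end ESY.Few
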