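import Pool.Agent.Lib.MP_80aaf5_lc.Few.World
import Pool.Agent.Lib.MP_80aaf5_lc.Few.Defs

/-!
# The machines with at most two accepting witnesses
-/

namespace ESY.Few

open ESY

/-! ### polynomial bounds -/

/-- bounded by a polynomial -/
def PB (f : ℕ → ℕ) : Prop := ∃ c, ∀ n, f n ≤ poly c n

theorem poly_le {c d n : ℕ} (h : c ≤ d) : poly c n ≤ poly d n ∨ n = 0 := by
  rcases Nat.eq_zero_or_pos n with h0 | h0
  · exact Or.inr h0
  · exact Or.inl (Nat.add_le_add (Nat.pow_le_pow_right h0 h) h)

theorem pb_id : PB fun n => n := ⟨1, fun n => by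
  unfold poly
  simp⟩

theorem pb_const (k : ℕ) : PB fun _ => k := ⟨k, fun n => Nat.le_add_left _ _⟩

theorem poly_two_le (a n : ℕ) (h : 2 ≤ n) : poly a n ≤ n ^ (a + 1) := by
  have h1 : a ≤ n ^ a := (Nat.lt_pow_self (by omega)).le
  unfold poly
  calc n ^ a + a ≤ n ^ a * 2 := by omega
    _ ≤ n ^ a * n := Nat.mul_le_mul_left _ h
    _ = n ^ (a + 1) := by ring

theorem poly_small (a n : ℕ) (h : n < 2) : poly a n ≤ 1 + a := by
  unfold poly
  have : n ^ a ≤ 1 := by
    calc n ^ a ≤ 1 ^ a := Nat.pow_le_pow_left (by omega) a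
      _ = 1 := one_pow a
  omega

theorem pb_add {f g : ℕ → ℕ} (hf : PB f) (hg : PB g) : PB fun n => f n + g n := by
  obtain ⟨a, ha⟩ := hf
  obtain ⟨b, hb⟩ := hg
  refine ⟨a + b + 2, fun n => ?_⟩
  refine (Nat.add_le_add (ha n) (hb n)).trans ?_
  rcases Nat.lt_or_ge n 2 with h | h
  · have h1 := poly_small a n h
    have h2 := poly_small b n h
    unfold poly at *
    omega
  · have h1 := poly_two_le a n h
    have h2 := poly_two_le b n h
    have h3 : n ^ (a + 1) ≤ n ^ (a + b + 1) := Nat.pow_le_pow_right (by omega) (by omega)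
    have h4 : n ^ (b + 1) ≤ n ^ (a + b + 1) := Nat.pow_le_pow_right (by omega) (by omega)
    have h5 : n ^ (a + b + 1) * 2 ≤ n ^ (a + b + 1) * n := Nat.mul_le_mul_left _ h
    have h6 : n ^ (a + b + 2) = n ^ (a + b + 1) * n := by ring
    have h7 : poly (a + b + 2) n = n ^ (a + b + 2) + (a + b + 2) := rfl
    omega

theorem pb_mul {f g : ℕ → ℕ} (hf : PB f) (hg : PB g) : PB fun n => f n * g n := by
  obtain ⟨a, ha⟩ := hf
  obtain ⟨b, hb⟩ := hg
  refine ⟨(a + b + 2) + (1 + a) * (1 + b), fun n => ?_⟩
  refine (Nat.mul_le_mul (ha n) (hb n)).trans ?_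
  have h7 : poly ((a + b + 2) + (1 + a) * (1 + b)) n =
    n ^ ((a + b + 2) + (1 + a) * (1 + b)) + ((a + b + 2) + (1 + a) * (1 + b)) := rfl
  rcases Nat.lt_or_ge n 2 with h | h
  · have h1 := Nat.mul_le_mul (poly_small a n h) (poly_small b n h)
    omega
  · have h1 := Nat.mul_le_mul (poly_two_le a n h) (poly_two_le b n h)
    have h2 : n ^ (a + 1) * n ^ (b + 1) = n ^ (a + b + 2) := by ring
    have h3 : n ^ (a + b + 2) ≤ n ^ ((a + b + 2) + (1 + a) * (1 + b)) :=
      Nat.pow_le_pow_right (by omega) (by omega)
    omega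

theorem pb_pow {f : ℕ → ℕ} (hf : PB f) (k : ℕ) : PB fun n => f n ^ k := by
  induction k with
  | zero => simpa using pb_const 1
  | succ k ih => simpa only [pow_succ] using pb_mul ih hf

theorem pb_poly (c : ℕ) : PB fun n => poly c n := ⟨c, fun _ => le_rfl⟩

/-! ### the machine -/

variable (e : ℕ)

/-- the states -/
def st (n : ℕ) : Fin (20 + e + 1) := Fin.ofNat _ n

/-- the program -/
def codeN : ℕ → Instr 3 (20 + e + 1)
  | 0 => .push 0 false (st e 20)
  | 1 => .pop 1 (st e 12) (st e 3) (st e 2)
  | 2 => .push 0 true (st e 1)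
  | 3 => .pop 1 (st e 7) (st e 4) (st e 5)
  | 4 => .push 0 false (st e 6)
  | 5 => .push 0 true (st e 6)
  | 6 => .push 2 true (st e 3)
  | 7 => .push 0 false (st e 8)
  | 8 => .pop 2 (st e 10) (st e 12) (st e 9)
  | 9 => .push 0 true (st e 8)
  | 10 => .push 0 false (st e 11)
  | 11 => .query 0 (st e 12) (st e 13)
  | 12 => .halt false
  | 13 => .halt true
  | n + 14 => if n + 14 < 20 + e then .push 0 true (st e (n + 15)) else .push 0 false (st e 1)

/-- the machine that reads `1^t 0 y` and asks about the code string with pad `y` reversed and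
statement `1^t 0 1^e 0 x` -/
def mc : Machine := ⟨1, 20 + e, fun s => codeN e s.val⟩

theorem code_st {n : ℕ} (h : n < 20 + e + 1) : (mc e).code (st e n) = codeN e n := by
  have : (st e n).val = n := Nat.mod_eq_of_lt h
  change codeN e (st e n).val = codeN e n
  rw [this]

/-- configurations of the machine -/
def cg (s : ℕ) (a b c : List Bool) : Cfg (mc e) := ⟨st e s, ![a, b, c]⟩

theorem up0 (a b c d : List Bool) :
    Function.update (![a, b, c] : Fin 3 → List Bool) 0 d = ![d, b, c] := by
  funext i; fin_cases i <;> rfl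
theorem up1 (a b c d : List Bool) :
    Function.update (![a, b, c] : Fin 3 → List Bool) 1 d = ![a, d, c] := by
  funext i; fin_cases i <;> rfl
theorem up2 (a b c d : List Bool) :
    Function.update (![a, b, c] : Fin 3 → List Bool) 2 d = ![a, b, d] := by
  funext i; fin_cases i <;> rfl

variable (O : Oracle)

variable {e O}

theorem push0 {s n : ℕ} {v : Bool} (h : s < 20 + e + 1) (hc : codeN e s = .push 0 v (st e n))
    (a b c : List Bool) : step O (mc e) (cg e s a b c) = cg e n (v :: a) b c := by
  unfold step cg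
  simp only [code_st e h, hc]
  exact congrArg (Cfg.mk (M := mc e) (st e n)) (up0 a b c _)

theorem push2 {s n : ℕ} {v : Bool} (h : s < 20 + e + 1) (hc : codeN e s = .push 2 v (st e n))
    (a b c : List Bool) : step O (mc e) (cg e s a b c) = cg e n a b (v :: c) := by
  unfold step cg
  simp only [code_st e h, hc]
  exact congrArg (Cfg.mk (M := mc e) (st e n)) (up2 a b c _)

theorem pop1e {s n₀ n₁ n₂ : ℕ} (h : s < 20 + e + 1)
    (hc : codeN e s = .pop 1 (st e n₀) (st e n₁) (st e n₂)) (a c : List Bool) :
    step O (mc e) (cg e s a [] c) = cg e n₀ a [] c := by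
  unfold step cg
  simp only [code_st e h, hc]
  rfl

theorem pop1f {s n₀ n₁ n₂ : ℕ} (h : s < 20 + e + 1)
    (hc : codeN e s = .pop 1 (st e n₀) (st e n₁) (st e n₂)) (a b c : List Bool) :
    step O (mc e) (cg e s a (false :: b) c) = cg e n₁ a b c := by
  unfold step cg
  simp only [code_st e h, hc]
  exact congrArg (Cfg.mk (M := mc e) (st e n₁)) (up1 a _ c b)

theorem pop1t {s n₀ n₁ n₂ : ℕ} (h : s < 20 + e + 1)
    (hc : codeN e s = .pop 1 (st e n₀) (st e n₁) (st e n₂)) (a b c : List Bool) :
    step O (mc e) (cg e s a (true :: b) c) = cg e n₂ a b c := by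
  unfold step cg
  simp only [code_st e h, hc]
  exact congrArg (Cfg.mk (M := mc e) (st e n₂)) (up1 a _ c b)

theorem pop2e {s n₀ n₁ n₂ : ℕ} (h : s < 20 + e + 1)
    (hc : codeN e s = .pop 2 (st e n₀) (st e n₁) (st e n₂)) (a b : List Bool) :
    step O (mc e) (cg e s a b []) = cg e n₀ a b [] := by
  unfold step cg
  simp only [code_st e h, hc]
  rfl

theorem pop2t {s n₀ n₁ n₂ : ℕ} (h : s < 20 + e + 1)
    (hc : codeN e s = .pop 2 (st e n₀) (st e n₁) (st e n₂)) (a b c : List Bool) :
    step O (mc e) (cg e s a b (true :: c)) = cg e n₂ a b c := by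
  unfold step cg
  simp only [code_st e h, hc]
  exact congrArg (Cfg.mk (M := mc e) (st e n₂)) (up2 a b _ c)

theorem ask {s n₀ n₁ : ℕ} (h : s < 20 + e + 1)
    (hc : codeN e s = .query 0 (st e n₀) (st e n₁)) (a b c : List Bool) :
    step O (mc e) (cg e s a b c) = cg e (if O a = true then n₁ else n₀) a b c := by
  unfold step cg
  simp only [code_st e h, hc]
  by_cases ha : O a = true
  · have : O (![a, b, c] 0) = true := ha
    simp [ha]
  · have : ¬ O (![a, b, c] 0) = true := ha
    simp [ha]

theorem halt {s : ℕ} {v : Bool} (h : s < 20 + e + 1)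
    (hc : codeN e s = .halt v) (a b c : List Bool) (n : ℕ) :
    (step O (mc e))^[n] (cg e s a b c) = cg e s a b c := by
  refine Function.iterate_fixed ?_ n
  unfold step cg
  simp only [code_st e h, hc]

theorem codeN_big (n : ℕ) (h : 14 ≤ n) : codeN e n =
    if n < 20 + e then .push 0 true (st e (n + 1)) else .push 0 false (st e 1) := by
  obtain ⟨k, rfl⟩ : ∃ k, n = k + 14 := ⟨n - 14, by omega⟩
  rfl

theorem shift (n : ℕ) (a : List Bool) :
    List.replicate n true ++ true :: a = List.replicate (n + 1) true ++ a := by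
  rw [List.replicate_succ', List.append_assoc]
  rfl

theorem phA (a b c : List Bool) : ∀ j ≤ e, (step O (mc e))^[j] (cg e 20 a b c) =
    cg e (20 + j) (List.replicate j true ++ a) b c := by
  intro j
  induction j with
  | zero => intro _; rfl
  | succ j ih =>
    intro hj
    rw [Function.iterate_succ_apply', ih (by omega)]
    rw [push0 (n := 20 + (j + 1)) (by omega)
      ((codeN_big (20 + j) (by omega)).trans (if_pos (by omega)))]
    rfl

theorem phA' (a b c : List Bool) : (step O (mc e))^[e + 1] (cg e 20 a b c) =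
    cg e 1 (false :: (List.replicate e true ++ a)) b c := by
  rw [Function.iterate_succ_apply', phA a b c e le_rfl]
  exact push0 (by omega) ((codeN_big (20 + e) (by omega)).trans (if_neg (by omega))) _ _ _

theorem phB (b c : List Bool) : ∀ (t : ℕ) (a : List Bool),
    (step O (mc e))^[2 * t + 1] (cg e 1 a (List.replicate t true ++ false :: b) c) =
      cg e 3 (List.replicate t true ++ a) b c := by
  intro t
  induction t with
  | zero => intro a; exact pop1f (by omega) rfl _ _ _
  | succ t ih =>
    intro a
    have h1 : 2 * (t + 1) + 1 = (2 * t + 1) + 1 + 1 := by ring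
    rw [h1, Function.iterate_succ_apply, Function.iterate_succ_apply, List.replicate_succ,
      List.cons_append, pop1t (by omega) rfl, push0 (by omega) rfl, ih, shift]
    rfl

theorem phB' (c : List Bool) : ∀ (t : ℕ) (a : List Bool) (T : ℕ), 2 * t + 1 ≤ T →
    ((step O (mc e))^[T] (cg e 1 a (List.replicate t true) c)).state = st e 12 := by
  intro t
  induction t with
  | zero =>
    intro a T hT
    obtain ⟨T', rfl⟩ : ∃ T', T = T' + 1 := ⟨T - 1, by omega⟩
    rw [Function.iterate_succ_apply, List.replicate_zero, pop1e (by omega) rfl,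
      halt (by omega) rfl]
    rfl
  | succ t ih =>
    intro a T hT
    obtain ⟨T', rfl⟩ : ∃ T', T = T' + 1 + 1 := ⟨T - 2, by omega⟩
    rw [Function.iterate_succ_apply, Function.iterate_succ_apply, List.replicate_succ,
      pop1t (by omega) rfl, push0 (by omega) rfl]
    exact ih _ _ (by omega)

theorem phC : ∀ (y a c : List Bool),
    (step O (mc e))^[3 * y.length + 1] (cg e 3 a y c) =
      cg e 7 (y.reverse ++ a) [] (List.replicate y.length true ++ c) := by
  intro y
  induction y with
  | nil => intro a c; exact pop1e (by omega) rfl _ _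
  | cons v y ih =>
    intro a c
    have h1 : 3 * (v :: y).length + 1 = (3 * y.length + 1) + 1 + 1 + 1 := by
      simp only [List.length_cons]; ring
    rw [h1, Function.iterate_succ_apply, Function.iterate_succ_apply, Function.iterate_succ_apply,
      List.reverse_cons, List.append_assoc, List.length_cons, ← shift]
    cases v
    · rw [pop1f (by omega) rfl, push0 (by omega) rfl, push2 (by omega) rfl, ih]
      rfl
    · rw [pop1t (by omega) rfl, push0 (by omega) rfl, push2 (by omega) rfl, ih]
      rfl

theorem phE (b : List Bool) : ∀ (m : ℕ) (a : List Bool),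
    (step O (mc e))^[2 * m + 1] (cg e 8 a b (List.replicate m true)) =
      cg e 10 (List.replicate m true ++ a) b [] := by
  intro m
  induction m with
  | zero => intro a; exact pop2e (by omega) rfl _ _
  | succ m ih =>
    intro a
    have h1 : 2 * (m + 1) + 1 = (2 * m + 1) + 1 + 1 := by ring
    rw [h1, Function.iterate_succ_apply, Function.iterate_succ_apply, List.replicate_succ,
      pop2t (by omega) rfl, push0 (by omega) rfl, ih, shift]
    rfl

theorem start_mc (x w : List Bool) : start (mc e) x w = cg e 0 x w [] := by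
  unfold start cg
  congr 1
  funext i
  fin_cases i <;> rfl

theorem split_ones : ∀ w : List Bool, (∃ t, w = List.replicate t true) ∨
    ∃ t y, w = List.replicate t true ++ false :: y := by
  intro w
  induction w with
  | nil => exact Or.inl ⟨0, rfl⟩
  | cons v w ih =>
    cases v
    · exact Or.inr ⟨0, w, rfl⟩
    · rcases ih with ⟨t, rfl⟩ | ⟨t, y, rfl⟩
      · exact Or.inl ⟨t + 1, rfl⟩
      · exact Or.inr ⟨t + 1, y, rfl⟩

theorem accepts_mc (x w : List Bool) (T : ℕ) (hT : e + 5 * w.length + 8 ≤ T) :
    AcceptsIn O (mc e) x w T ↔ ∃ t y, w = List.replicate t true ++ false :: y ∧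
      O (false :: cs y.reverse (stmt t e x)) = true := by
  unfold AcceptsIn
  rw [start_mc]
  obtain ⟨T₁, rfl⟩ : ∃ T₁, T = T₁ + (e + 1) + 1 := ⟨T - 1 - (e + 1), by omega⟩
  rw [Function.iterate_succ_apply, push0 (by omega) rfl, Function.iterate_add_apply, phA']
  rcases split_ones w with ⟨t, rfl⟩ | ⟨t, y, rfl⟩
  · rw [phB' _ _ _ _ (by simp at hT; omega), code_st e (by omega)]
    constructor
    · intro h
      exact absurd (Instr.halt.inj h) (by decide)
    · rintro ⟨t', y, h, -⟩
      exfalso
      have h1 : false ∈ List.replicate t true := by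
        rw [h]; simp
      exact absurd (List.eq_of_mem_replicate h1) (by decide)
  · simp only [List.length_append, List.length_replicate, List.length_cons] at hT
    obtain ⟨T₂, rfl⟩ : ∃ T₂, T₁ = T₂ + 1 + 1 + (2 * y.length + 1) + 1 + (3 * y.length + 1) +
      (2 * t + 1) := ⟨T₁ - (2 * t + 1) - (3 * y.length + 1) - 1 - (2 * y.length + 1) - 1 - 1,
        by omega⟩
    rw [Function.iterate_add_apply, phB, Function.iterate_add_apply, phC,
      Function.iterate_succ_apply, push0 (by omega) rfl, Function.iterate_add_apply,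
      List.append_nil, phE, Function.iterate_succ_apply, push0 (by omega) rfl,
      Function.iterate_succ_apply, ask (by omega) rfl]
    have h1 : (false :: (List.replicate y.length true ++ false :: (y.reverse ++
        (List.replicate t true ++ false :: (List.replicate e true ++ false :: x))))) =
        false :: cs y.reverse (stmt t e x) := by
      unfold cs stmt
      rw [List.length_reverse]
    rw [h1]
    have h2 : (∃ t' y', List.replicate t true ++ false :: y =
        List.replicate t' true ++ false :: y' ∧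
        O (false :: cs y'.reverse (stmt t' e x)) = true) ↔
        O (false :: cs y.reverse (stmt t e x)) = true := by
      constructor
      · rintro ⟨t', y', h3, h4⟩
        obtain ⟨rfl, rfl⟩ := rep_inj h3
        exact h4
      · intro h
        exact ⟨t, y, rfl, h⟩
    rw [h2]
    by_cases hO : O (false :: cs y.reverse (stmt t e x)) = true
    · rw [if_pos hO, halt (by omega) rfl]
      refine ⟨fun _ => hO, fun _ => ?_⟩
      exact code_st e (by omega)
    · rw [if_neg hO, halt (by omega) rfl]
      refine ⟨fun h => ?_, fun h => absurd h hO⟩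
      have h3 : (mc e).code (st e 12) = .halt true := h
      rw [code_st e (by omega)] at h3
      exact absurd (Instr.halt.inj h3) (by decide)

theorem accepts_mono {M : Machine} {x w : List Bool} {T T' : ℕ} (h : AcceptsIn O M x w T)
    (hT : T ≤ T') : AcceptsIn O M x w T' := by
  obtain ⟨d, rfl⟩ := Nat.exists_eq_add_of_le hT
  unfold AcceptsIn at *
  have h1 : (step O M)^[T + d] (start M x w) = (step O M)^[T] (start M x w) := by
    have h2 : step O M ((step O M)^[T] (start M x w)) = (step O M)^[T] (start M x w) := by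
      generalize (step O M)^[T] (start M x w) = c at h
      unfold step
      rw [h]
    rw [Nat.add_comm T d, Function.iterate_add_apply]
    exact Function.iterate_fixed h2 d
  rw [h1]
  exact h

theorem form_of_accepts {x w : List Bool} {T : ℕ} (h : AcceptsIn O (mc e) x w T) :
    ∃ t y, w = List.replicate t true ++ false :: y ∧
      O (false :: cs y.reverse (stmt t e x)) = true :=
  (accepts_mc x w (T + (e + 5 * w.length + 8)) (Nat.le_add_left _ _)).1
    (accepts_mono h (Nat.le_add_right _ _))

theorem IsWorld.stmt_iff {pd : Pads} {D : Oracle} (h : IsWorld pd D O) (t : ℕ) (x z : List Bool) :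
    O (false :: cs z (stmt t e x)) = true ↔ t = tb e x ∧ (∃ i, z = pd e x i) ∧ Tr O e x := by
  rw [h.code]
  constructor
  · rintro ⟨e', x', i, h1, h2⟩
    obtain ⟨h3, h4⟩ := cs_inj h1
    obtain ⟨h5, rfl, rfl⟩ := stmt_inj h4
    exact ⟨h5, ⟨i, h3⟩, h2⟩
  · rintro ⟨rfl, ⟨i, rfl⟩, h2⟩
    exact ⟨e, x, i, rfl, h2⟩

/-- In the worlds with two pads, `NP` is included in `UP_{≤ 2}`. -/
theorem upk_of_world {pd : Pads} {D : Oracle} (hp : Len pd) (hO : IsWorld pd D O)
    {L : Set (List Bool)} {e : ℕ} (hL : ∀ x, x ∈ L ↔ Tr O e x) : InUPk 2 O L := by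
  have hpb : PB fun n => (e + 8) + 5 * ((poly (nu e).2 n + 1) +
      (poly (nu e).2 n + 1 + (e + 1 + n)) ^ 2) := by
    refine pb_add (pb_const _) (pb_mul (pb_const 5) (pb_add (pb_add (pb_poly _) (pb_const 1))
      (pb_pow (pb_add (pb_add (pb_poly _) (pb_const 1)) (pb_add (pb_const _) pb_id)) 2)))
  obtain ⟨c, hc⟩ := hpb
  have hlen : ∀ x i, e + 5 * (List.replicate (tb e x) true ++ false :: (pd e x i).reverse).length
      + 8 ≤ poly c x.length := by
    intro x i
    refine le_trans (le_of_eq ?_) (hc x.length)
    simp only [List.length_append, List.length_replicate, List.length_cons, List.length_reverse,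
      hp e x i, stm, stmt_length]
    unfold tb
    ring
  refine ⟨mc e, c, fun x => ?_, fun x => ?_⟩
  · rw [hL x]
    constructor
    · intro ht
      refine ⟨List.replicate (tb e x) true ++ false :: (pd e x false).reverse, ?_, ?_⟩
      · have := hlen x false
        omega
      · refine (accepts_mc x _ _ (hlen x false)).2 ⟨tb e x, (pd e x false).reverse, rfl, ?_⟩
        rw [List.reverse_reverse, hO.stmt_iff]
        exact ⟨rfl, ⟨false, rfl⟩, ht⟩
    · rintro ⟨w, -, h⟩
      obtain ⟨t, y, -, h1⟩ := form_of_accepts h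
      exact (hO.stmt_iff t x _).1 h1 |>.2.2
  · have hsub : {w : List Bool | w.length ≤ poly c x.length ∧
        AcceptsIn O (mc e) x w (poly c x.length)} ⊆
        {List.replicate (tb e x) true ++ false :: (pd e x false).reverse,
          List.replicate (tb e x) true ++ false :: (pd e x true).reverse} := by
      rintro w ⟨-, h⟩
      obtain ⟨t, y, rfl, h1⟩ := form_of_accepts h
      obtain ⟨rfl, ⟨i, hi⟩, -⟩ := (hO.stmt_iff t x _).1 h1
      have h2 : y = (pd e x i).reverse := by rw [← hi, List.reverse_reverse]
      subst h2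
      cases i
      · exact Or.inl rfl
      · exact Or.inr rfl
    refine (Set.encard_le_encard hsub).trans ?_
    refine (Set.encard_insert_le _ _).trans ?_
    rw [Set.encard_singleton]
    norm_num

end ESY.Few
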