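import Pool.Agent.Lib.MP_80aaf5_lc.Few.World

/-!
# Recursive supports
-/

namespace ESY.Few

open ESY

/-- the recursive support of the string `r₀`: `Q e x` is the set of queries of the chosen
witness of the statement `(e, x)` -/
inductive Cl (Q : ℕ → List Bool → Finset (List Bool)) (O : Oracle) (r₀ : List Bool) :
    List Bool → Prop
  | base : Cl Q O r₀ r₀
  | step {e : ℕ} {x z r : List Bool} : Cl Q O r₀ (false :: cs z (stm e x)) →
      O (false :: cs z (stm e x)) = true → r ∈ Q e x → Cl Q O r₀ r

/-- closed sets of strings -/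
def Closed (Q : ℕ → List Bool → Finset (List Bool)) (O : Oracle) (S : Set (List Bool)) : Prop :=
  ∀ e x z, (false :: cs z (stm e x)) ∈ S → O (false :: cs z (stm e x)) = true →
    ∀ r ∈ Q e x, r ∈ S

/-- size bounds for the query sets -/
def QB (Q : ℕ → List Bool → Finset (List Bool)) : Prop :=
  ∀ e x, (Q e x).card ≤ (stm e x).length ∧ ∀ r ∈ Q e x, r.length ≤ 2 * (stm e x).length

theorem Cl.mem_closed {Q : ℕ → List Bool → Finset (List Bool)} {O : Oracle} {r₀ r : List Bool}
    (h : Cl Q O r₀ r) {S : Set (List Bool)} (hS : Closed Q O S) (h0 : r₀ ∈ S) : r ∈ S := by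
  induction h with
  | base => exact h0
  | step _ h2 h3 ih => exact hS _ _ _ ih h2 _ h3

theorem Cl.trans {Q : ℕ → List Bool → Finset (List Bool)} {O : Oracle} {r₀ r r' : List Bool}
    (h : Cl Q O r₀ r) (h' : Cl Q O r r') : Cl Q O r₀ r' := by
  induction h' with
  | base => exact h
  | step _ h2 h3 ih => exact Cl.step ih h2 h3

/-- the closure of a set of roots -/
def clos (Q : ℕ → List Bool → Finset (List Bool)) (O : Oracle) (R : Finset (List Bool)) :
    Set (List Bool) := {r | ∃ r₀ ∈ R, Cl Q O r₀ r}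

theorem closed_clos (Q : ℕ → List Bool → Finset (List Bool)) (O : Oracle)
    (R : Finset (List Bool)) : Closed Q O (clos Q O R) := by
  rintro e x z ⟨r₀, h0, h1⟩ h2 r hr
  exact ⟨r₀, h0, h1.step h2 hr⟩

theorem subset_clos {Q : ℕ → List Bool → Finset (List Bool)} {O : Oracle}
    {R : Finset (List Bool)} {r : List Bool} (h : r ∈ R) : r ∈ clos Q O R := ⟨r, h, .base⟩

theorem cl_card {Q : ℕ → List Bool → Finset (List Bool)} (hQ : QB Q) {pd : Pads} (hp : Len pd)
    {D O : Oracle} (hO : IsWorld pd D O) : ∀ (m : ℕ) (r₀ : List Bool), r₀.length ≤ m →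
    ∃ F : Finset (List Bool), (∀ r, Cl Q O r₀ r → r ∈ F) ∧ F.card ≤ 1 + r₀.length ^ 2 := by
  classical
  intro m
  induction m using Nat.strong_induction_on with
  | _ m ih =>
  intro r₀ hr₀
  by_cases hc : ∃ z e x, r₀ = false :: cs z (stm e x) ∧ O r₀ = true
  · obtain ⟨z, e, x, rfl, h1⟩ := hc
    obtain ⟨⟨i, hz⟩, -⟩ := (hO.code_iff e x z).1 h1
    have hlen := code_len hp e x i
    rw [← hz] at hlen
    have h2 := two_stm_lt e x
    have h3 := two_le_stm e x
    have key : ∀ r ∈ Q e x, ∃ F : Finset (List Bool), (∀ r', Cl Q O r r' → r' ∈ F) ∧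
        F.card ≤ 1 + (2 * (stm e x).length) ^ 2 := by
      intro r hr
      have h4 := (hQ e x).2 r hr
      obtain ⟨F, hF, hF2⟩ := ih r.length (by omega) r le_rfl
      exact ⟨F, hF, hF2.trans (by gcongr)⟩
    choose! F hF hF2 using key
    refine ⟨{false :: cs z (stm e x)} ∪ (Q e x).biUnion F, ?_, ?_⟩
    · intro r hr
      have h9 : r = false :: cs z (stm e x) ∨ ∃ s ∈ Q e x, Cl Q O s r := by
        induction hr with
        | base => exact Or.inl rfl
        | @step e' x' z' r' _ h5 h6 ih' =>
          rcases ih' with ih' | ⟨s, hs, ih'⟩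
          · have h7 := List.cons.inj ih'
            obtain ⟨-, h8⟩ := cs_inj h7.2
            obtain ⟨rfl, rfl⟩ := stm_inj h8
            exact Or.inr ⟨r', h6, .base⟩
          · exact Or.inr ⟨s, hs, ih'.step h5 h6⟩
      simp only [Finset.mem_union, Finset.mem_singleton, Finset.mem_biUnion]
      rcases h9 with h9 | ⟨s, hs, h9⟩
      · exact Or.inl h9
      · exact Or.inr ⟨s, hs, hF s hs r h9⟩
    · refine (Finset.card_union_le _ _).trans ?_
      rw [Finset.card_singleton]
      have h5 : ((Q e x).biUnion F).card ≤ (Q e x).card * (1 + (2 * (stm e x).length) ^ 2) :=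
        Finset.card_biUnion_le_card_mul _ _ _ fun r hr => hF2 r hr
      have h6 : (Q e x).card * (1 + (2 * (stm e x).length) ^ 2) ≤
          (stm e x).length * (1 + (2 * (stm e x).length) ^ 2) := Nat.mul_le_mul_right _ (hQ e x).1
      rw [hlen]
      generalize (stm e x).length = u at *
      have h7 : u * (1 + (2 * u) ^ 2) ≤ (2 * u ^ 2 + u + 2) ^ 2 := by nlinarith [sq_nonneg (u : ℤ)]
      omega
  · refine ⟨{r₀}, ?_, by simp⟩
    intro r hr
    induction hr with
    | base => simp
    | @step e' x' z' r' _ h5 h6 ih' =>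
      rw [Finset.mem_singleton] at ih'
      exact absurd ⟨z', e', x', ih'.symm, by rw [← ih']; exact h5⟩ hc

theorem clos_card {Q : ℕ → List Bool → Finset (List Bool)} (hQ : QB Q) {pd : Pads} (hp : Len pd)
    {D O : Oracle} (hO : IsWorld pd D O) (R : Finset (List Bool)) (m : ℕ)
    (hR : ∀ r ∈ R, r.length ≤ m) :
    ∃ F : Finset (List Bool), (∀ r ∈ clos Q O R, r ∈ F) ∧ F.card ≤ R.card * (1 + m ^ 2) := by
  classical
  have key : ∀ r : List Bool, ∃ F : Finset (List Bool), (∀ r', Cl Q O r r' → r' ∈ F) ∧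
      F.card ≤ 1 + r.length ^ 2 := fun r => cl_card hQ hp hO r.length r le_rfl
  choose F hF hF2 using key
  refine ⟨R.biUnion F, ?_, Finset.card_biUnion_le_card_mul _ _ _ fun r hr => (hF2 r).trans ?_⟩
  · rintro r ⟨r₀, h0, h1⟩
    exact Finset.mem_biUnion.2 ⟨r₀, h0, hF r₀ r h1⟩
  · have := hR r hr
    gcongr

/-- The transfer principle: two worlds agree on a closed set `S` if the data agree there. -/
theorem transfer {Q : ℕ → List Bool → Finset (List Bool)} {pd pd' : Pads} (hp : Len pd)
    {D D' O O' : Oracle} (hO : IsWorld pd D O) (hO' : IsWorld pd' D' O')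
    (hsup : ∀ e x, Tr O e x → ∃ u : List Bool, u.length ≤ tb e x ∧
      AcceptsIn O (nu e).1 x u (tb e x) ∧
      ∀ s ∈ asked O (nu e).1 (tb e x) (start (nu e).1 x u), s ∈ Q e x)
    (hQ : QB Q) {S : Set (List Bool)} (hS : Closed Q O S)
    (ha : ∀ s, (true :: s) ∈ S → D' s = D s)
    (hb : ∀ e x i, (false :: cs (pd e x i) (stm e x)) ∈ S → Tr O e x →
      ∃ i', pd' e x i' = pd e x i)
    (hc : ∀ e x i, (false :: cs (pd' e x i) (stm e x)) ∈ S → Tr O' e x →
      O (false :: cs (pd' e x i) (stm e x)) = true) :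
    ∀ r ∈ S, O' r = O r := by
  have key : ∀ (m : ℕ) (r : List Bool), r.length ≤ m → r ∈ S → O' r = O r := by
    intro m
    induction m using Nat.strong_induction_on with
    | _ m ih =>
    intro r hr hrS
    match r, hr, hrS with
    | [], _, _ => rw [hO.nil, hO'.nil]
    | true :: s, _, hrS => rw [hO.free, hO'.free, ha s hrS]
    | false :: r', hr, hrS =>
      rw [Bool.eq_iff_iff]
      constructor
      · intro h
        obtain ⟨e, x, i, rfl, h2⟩ := (hO'.code r').1 h
        exact hc e x i hrS h2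
      · intro h
        obtain ⟨e, x, i, h1, h2⟩ := (hO.code r').1 h
        subst h1
        obtain ⟨i', hi'⟩ := hb e x i hrS h2
        refine (hO'.code _).2 ⟨e, x, i', by rw [hi'], ?_⟩
        obtain ⟨u, hu1, hu2, hu3⟩ := hsup e x h2
        refine ⟨u, hu1, (accepts_congr fun s hs => ?_).2 hu2⟩
        have h3 := hS e x _ hrS h s (hu3 s hs)
        have h4 := (hQ e x).2 s (hu3 s hs)
        have h5 := code_len hp e x i
        have h6 := two_stm_lt e x
        exact ih s.length (by omega) s le_rfl h3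
  exact fun r hr => key r.length r le_rfl hr

/-- Two worlds with the same data for short strings agree on short strings. -/
theorem short_agree {pd pd' : Pads} (hp : Len pd) (hp' : Len pd')
    {D D' O O' : Oracle} (hO : IsWorld pd D O) (hO' : IsWorld pd' D' O') (n : ℕ)
    (h1 : ∀ e x i, (stm e x).length ≤ n → pd e x i = pd' e x i)
    (h2 : ∀ s : List Bool, s.length < 2 * n → D s = D' s) : Agree (2 * n) O O' := by
  have key : ∀ m ≤ 2 * n, Agree m O O' := by
    intro m
    induction m using Nat.strong_induction_on with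
    | _ m ih =>
    intro hm r hr
    match r, hr with
    | [], _ => rw [hO.nil, hO'.nil]
    | true :: s, hr =>
      rw [hO.free, hO'.free, h2 s]
      simp only [List.length_cons] at hr
      omega
    | false :: r', hr =>
      rw [Bool.eq_iff_iff, hO.code, hO'.code]
      constructor
      · rintro ⟨e, x, i, rfl, h3⟩
        have h5 := code_len hp e x i
        have h6 := two_stm_lt e x
        refine ⟨e, x, i, by rw [h1 e x i (by omega)], (tr_congr ?_).1 h3⟩
        exact ih _ (by omega) (by omega)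
      · rintro ⟨e, x, i, rfl, h3⟩
        have h5 := code_len hp' e x i
        have h6 := two_stm_lt e x
        refine ⟨e, x, i, by rw [h1 e x i (by omega)], (tr_congr ?_).2 h3⟩
        exact ih _ (by omega) (by omega)
  exact key _ le_rfl

end ESY.Few
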