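import Pool.Agent.Lib.MP_80aaf5_lc.Few.Union
import Pool.Agent.Lib.MP_80aaf5_lc.Few.Space

/-!
# The density argument
-/

namespace ESY.Few

open ESY Set

/-! ### counting -/

theorem exists_pair {α : Type*} [DecidableEq α] (s t : Finset α) (R₁ R₂ : α → α → Prop) (B : ℕ)
    (F₁ : α → Finset α) (F₂ : α → Finset α)
    (h₁ : ∀ a ∈ s, (F₁ a).card ≤ B ∧ ∀ b, R₁ a b → b ∈ F₁ a)
    (h₂ : ∀ b ∈ t, (F₂ b).card ≤ B ∧ ∀ a, R₂ a b → a ∈ F₂ b)
    (hs : 2 * B + 1 < s.card) (ht : 2 * B + 1 < t.card) :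
    ∃ a ∈ s, ∃ b ∈ t, a ≠ b ∧ ¬ R₁ a b ∧ ¬ R₂ a b := by
  obtain ⟨s', hs', hsc⟩ := Finset.exists_subset_card_eq (show 2 * B + 2 ≤ s.card from hs)
  obtain ⟨t', ht', htc⟩ := Finset.exists_subset_card_eq (show 2 * B + 2 ≤ t.card from ht)
  by_contra hcon
  push Not at hcon
  have hsub : s' ×ˢ t' ⊆ (s'.biUnion fun a => (F₁ a).image fun b => (a, b)) ∪
      ((t'.biUnion fun b => (F₂ b).image fun a => (a, b)) ∪ s'.image fun a => (a, a)) := by
    rintro ⟨a, b⟩ hab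
    obtain ⟨ha, hb⟩ := Finset.mem_product.1 hab
    simp only at ha hb
    simp only [Finset.mem_union, Finset.mem_biUnion, Finset.mem_image, Prod.mk.injEq]
    by_cases e : a = b
    · subst e
      exact Or.inr (Or.inr ⟨a, ha, rfl, rfl⟩)
    · by_cases e1 : R₁ a b
      · exact Or.inl ⟨a, ha, b, (h₁ a (hs' ha)).2 b e1, rfl, rfl⟩
      · have e2 := hcon a (hs' ha) b (ht' hb) e e1
        exact Or.inr (Or.inl ⟨b, hb, a, (h₂ b (ht' hb)).2 a e2, rfl, rfl⟩)
  have h3 := Finset.card_le_card hsub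
  have h4 : (s'.biUnion fun a => (F₁ a).image fun b => (a, b)).card ≤ s'.card * B :=
    Finset.card_biUnion_le_card_mul _ _ _ fun a ha =>
      Finset.card_image_le.trans (h₁ a (hs' ha)).1
  have h5 : (t'.biUnion fun b => (F₂ b).image fun a => (a, b)).card ≤ t'.card * B :=
    Finset.card_biUnion_le_card_mul _ _ _ fun b hb =>
      Finset.card_image_le.trans (h₂ b (ht' hb)).1
  have h6 : (s'.image fun a => (a, a)).card ≤ s'.card := Finset.card_image_le
  have h7 := Finset.card_union_le (s'.biUnion fun a => (F₁ a).image fun b => (a, b))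
    ((t'.biUnion fun b => (F₂ b).image fun a => (a, b)) ∪ s'.image fun a => (a, a))
  have h8 := Finset.card_union_le (t'.biUnion fun b => (F₂ b).image fun a => (a, b))
    (s'.image fun a => (a, a))
  rw [Finset.card_product, hsc, htc] at h3
  rw [hsc] at h4 h6
  rw [htc] at h5
  nlinarith

/-- the words -/
abbrev wl {n : ℕ} (u : Fin n → Bool) : List Bool := List.ofFn u

theorem hit_count {n : ℕ} {x₀ : List Bool} (hx : x₀.length = n) (F : Finset (List Bool)) :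
    ∃ G : Finset (Fin n → Bool), G.card ≤ F.card ∧
      ∀ u, (∃ r ∈ F, Hit x₀ (wl u) r) → u ∈ G := by
  classical
  refine ⟨Finset.univ.filter fun u => ∃ r ∈ F, Hit x₀ (wl u) r, ?_, fun u hu => by simpa using hu⟩
  have h1 : ∀ u ∈ Finset.univ.filter (fun u : Fin n → Bool => ∃ r ∈ F, Hit x₀ (wl u) r),
      ∃ r, r ∈ F ∧ Hit x₀ (wl u) r := by
    intro u hu
    obtain ⟨r, h1, h2⟩ := (Finset.mem_filter.1 hu).2
    exact ⟨r, h1, h2⟩
  choose! g hg using h1
  refine Finset.card_le_card_of_injOn g (fun u hu => (hg u hu).1) ?_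
  intro u hu v hv huv
  have h2 := (hg u hu).2
  rw [huv] at h2
  exact List.ofFn_injective (hit_unique (by simp [hx]) (by simp [hx]) h2 (hg v hv).2)

theorem stm_len_le (i : ℕ) (q : List Bool) (m : ℕ) (h : q.length ≤ m) :
    (stm i q).length ≤ poly (nu i).2 m + i + m + 2 := by
  rw [stm, stmt_length, tb]
  have : poly (nu i).2 q.length ≤ poly (nu i).2 m := by
    unfold poly
    gcongr
  omega

/-- The data of the density argument. -/
structure Setup (i₁ i₂ : ℕ) : Type where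
  U : Set Par
  y₀ : Par
  N : ℕ
  hU : ∀ y : Par, (∀ i, sz i ≤ N → y i = y₀ i) → y ∈ U
  hdis : ∀ y ∈ U, ∀ q, ¬ (Tr (OO y) i₁ q ∧ Tr (OO y) i₂ q)
  n : ℕ
  hN : N ≤ n
  ℓ : ℕ
  m : ℕ
  hℓ₁ : ∀ q : List Bool, q.length ≤ m → (stm i₁ q).length ≤ ℓ
  hℓ₂ : ∀ q : List Bool, q.length ≤ m → (stm i₂ q).length ≤ ℓ
  hN₁ : ∀ q : List Bool, q.length ≤ N → (stm i₁ q).length ≤ n
  hN₂ : ∀ q : List Bool, q.length ≤ N → (stm i₂ q).length ≤ n
  hB : ℓ * (1 + (2 * ℓ) ^ 2) + ℓ * (1 + (2 * ℓ) ^ 2) < 2 ^ n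
  hn : 0 < n

namespace Setup

variable {i₁ i₂ : ℕ} (s : Setup i₁ i₂)

/-- the input -/
def x₀ : List Bool := List.replicate s.n false

theorem x₀_len : s.x₀.length = s.n := by simp [x₀]

open Classical in
/-- the base world -/
noncomputable def b : Base where
  x₀ := s.x₀
  pd := pdOf s.y₀
  D := fun r => if ∃ w j, w.length = s.n ∧ true :: r = qstr s.x₀ w j then false else DOf s.y₀ r
  hp := len_pdOf _
  hD := by
    intro w j r hw hr
    exact if_pos ⟨w, j, hw.trans s.x₀_len, hr⟩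

theorem b_x₀ : s.b.x₀ = s.x₀ := rfl

theorem b_len : s.b.x₀.length = s.n := s.x₀_len

theorem wl_len (u : Fin s.n → Bool) : (wl u).length = s.b.x₀.length := by
  rw [s.b_len, List.length_ofFn]

theorem b_D_short {r : List Bool} (h : r.length ≤ s.N) : s.b.D r = DOf s.y₀ r := by
  refine if_neg ?_
  rintro ⟨w, j, hw, hr⟩
  have h1 := congrArg List.length hr
  rw [qstr_length _ _ _ (hw.trans s.x₀_len.symm), List.length_cons, s.x₀_len] at h1
  have := s.hN
  have := s.hn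
  omega

/-- the bound -/
def B : ℕ := s.ℓ * (1 + (2 * s.ℓ) ^ 2)

open Classical in
/-- words whose world has `q` in the language `i` -/
noncomputable def SA (i : ℕ) (q : List Bool) : Finset (Fin s.n → Bool) :=
  Finset.univ.filter fun u => Tr (s.b.Ow (wl u)) i q

theorem mem_SA {i : ℕ} {q : List Bool} {u : Fin s.n → Bool} :
    u ∈ s.SA i q ↔ Tr (s.b.Ow (wl u)) i q := by simp [SA]

open Classical in
/-- the prescribed separators -/
noncomputable def sg : ℕ → ℕ → Oracle := fun j₁ j₂ q =>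
  if j₁ = i₁ ∧ j₂ = i₂ ∧ s.N < q.length then
    (if 2 * s.B + 1 < (s.SA i₁ q).card then true
      else if 2 * s.B + 1 < (s.SA i₂ q).card then false else sgOf s.y₀ j₁ j₂ q)
  else sgOf s.y₀ j₁ j₂ q

theorem sg_short {j₁ j₂ : ℕ} {q : List Bool} (h : q.length ≤ s.N) :
    s.sg j₁ j₂ q = sgOf s.y₀ j₁ j₂ q := if_neg fun h' => absurd h'.2.2 (not_lt.2 h)

/-- all constructed parameters are in `U` -/
theorem mk_mem {pd : Pads} {D : Oracle}
    (h1 : ∀ e x i, (stm e x).length ≤ s.b.x₀.length → pd e x i = s.b.pd e x i)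
    (h2 : ∀ r : List Bool, r.length < 2 * s.b.x₀.length → D r = s.b.D r) :
    mkPar s.y₀ pd D s.sg ∈ s.U := by
  refine s.hU _ (mk_agree _ _ _ _ _ ?_ ?_ ?_)
  · intro e x i h
    exact h1 e x i (by rw [s.b_len]; exact h.trans s.hN)
  · intro r h
    rw [h2 r, s.b_D_short h]
    rw [s.b_len]
    have := s.hN
    have := s.hn
    omega
  · intro _ _ q h
    exact s.sg_short h

/-- the base parameter -/
noncomputable def y : Par := mkPar s.y₀ s.b.pd s.b.D s.sg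

/-- the perturbed parameters -/
noncomputable def yw (u : Fin s.n → Bool) : Par :=
  mkPar s.y₀ (s.b.pdw (wl u)) (s.b.Dw {wl u}) s.sg

theorem y_mem : s.y ∈ s.U := s.mk_mem (fun _ _ _ _ => rfl) fun _ _ => rfl

theorem yw_mem (u : Fin s.n → Bool) : s.yw u ∈ s.U := by
  refine s.mk_mem (fun _ _ i h => Base.pdw_short h i) fun r h => Base.Dw_short ?_ h
  rintro _ rfl
  exact s.wl_len u

theorem OO_y : OO s.y = s.b.O := OO_mk _ s.b.hp _ _

theorem OO_yw (u : Fin s.n → Bool) : OO (s.yw u) = s.b.Ow (wl u) :=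
  OO_mk _ (Base.pdw_len (s.wl_len u)) _ _

theorem not_test : s.x₀ ∉ Test (OO s.y) := by
  rw [s.OO_y]
  rintro ⟨w, hw, h⟩
  have h1 := h 0 (Nat.zero_le _)
  rw [qstr_cons, s.b.isW.free] at h1
  have h2 := s.b.hD w 0 _ hw (qstr_cons s.x₀ w 0).symm
  rw [h2] at h1
  exact absurd h1 (by decide)

theorem test (u : Fin s.n → Bool) : s.x₀ ∈ Test (OO (s.yw u)) := by
  rw [s.OO_yw]
  refine ⟨wl u, s.wl_len u, fun j hj => ?_⟩
  rw [qstr_cons, (Base.isWw (s.wl_len u)).free]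
  exact Base.Dw_pos ⟨wl u, rfl, j, hj, (qstr_cons s.x₀ (wl u) j).symm⟩

/-- the closure of a statement -/
theorem clos_bound (u : Fin s.n → Bool) {i : ℕ} {q : List Bool} (h : (stm i q).length ≤ s.ℓ) :
    ∃ F : Finset (List Bool),
      (∀ r ∈ clos (s.b.Qw (wl u)) (s.b.Ow (wl u)) (s.b.Qw (wl u) i q), r ∈ F) ∧
      F.card ≤ s.B := by
  obtain ⟨F, hF1, hF2⟩ := clos_card Base.qbw (Base.pdw_len (s.wl_len u)) (Base.isWw (s.wl_len u))
    (s.b.Qw (wl u) i q) (2 * s.ℓ) fun r hr => ((Base.qbw i q).2 r hr).trans (by omega)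
  refine ⟨F, hF1, hF2.trans (Nat.mul_le_mul_right _ ((Base.qbw i q).1.trans h))⟩

theorem clos_bound' {i : ℕ} {q : List Bool} (h : (stm i q).length ≤ s.ℓ) :
    ∃ F : Finset (List Bool), (∀ r ∈ clos s.b.Q s.b.O (s.b.Q i q), r ∈ F) ∧ F.card ≤ s.B := by
  obtain ⟨F, hF1, hF2⟩ := clos_card s.b.qb s.b.hp s.b.isW
    (s.b.Q i q) (2 * s.ℓ) fun r hr => ((s.b.qb i q).2 r hr).trans (by omega)
  exact ⟨F, hF1, hF2.trans (Nat.mul_le_mul_right _ ((s.b.qb i q).1.trans h))⟩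

/-- not both languages contain `q` in many worlds -/
theorem not_both {q : List Bool} (hq : q.length ≤ s.m) (h1 : 2 * s.B + 1 < (s.SA i₁ q).card)
    (h2 : 2 * s.B + 1 < (s.SA i₂ q).card) : False := by
  classical
  have hc : ∀ i, (stm i q).length ≤ s.ℓ → ∀ u : Fin s.n → Bool, ∃ F : Finset (List Bool),
      (∀ r ∈ clos (s.b.Qw (wl u)) (s.b.Ow (wl u)) (s.b.Qw (wl u) i q), r ∈ F) ∧
      F.card ≤ s.B := fun i hi u => s.clos_bound u hi
  choose F hF1 hF2 using hc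
  have hG : ∀ F : Finset (List Bool), ∃ G : Finset (Fin s.n → Bool), G.card ≤ F.card ∧
      ∀ u, (∃ r ∈ F, Hit s.b.x₀ (wl u) r) → u ∈ G := fun F => hit_count s.b_len F
  choose G hG1 hG2 using hG
  have hfr : ∀ i (hi : (stm i q).length ≤ s.ℓ) (u u' : Fin s.n → Bool),
      ¬ Free s.b.x₀ (wl u') (clos (s.b.Qw (wl u)) (s.b.Ow (wl u)) (s.b.Qw (wl u) i q)) →
      u' ∈ G (F i hi u) := by
    intro i hi u u' h
    unfold Free at h
    push Not at h
    obtain ⟨r, hr, hh⟩ := h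
    exact hG2 _ _ ⟨r, hF1 _ _ _ r hr, hh⟩
  obtain ⟨u, hu, u', hu', -, hR1, hR2⟩ := exists_pair (s.SA i₁ q) (s.SA i₂ q)
    (fun u u' => ¬ Free s.b.x₀ (wl u')
      (clos (s.b.Qw (wl u)) (s.b.Ow (wl u)) (s.b.Qw (wl u) i₁ q)))
    (fun u u' => ¬ Free s.b.x₀ (wl u)
      (clos (s.b.Qw (wl u')) (s.b.Ow (wl u')) (s.b.Qw (wl u') i₂ q)))
    s.B (fun u => G (F i₁ (s.hℓ₁ q hq) u)) (fun u => G (F i₂ (s.hℓ₂ q hq) u))
    (fun u _ => ⟨(hG1 _).trans (hF2 _ _ _), fun u' h => hfr _ _ _ _ h⟩)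
    (fun u' _ => ⟨(hG1 _).trans (hF2 _ _ _), fun u h => hfr _ _ _ _ h⟩) h1 h2
  · rw [not_not] at hR1 hR2
    obtain ⟨pdu, hp1, hp2, hp3, hp4⟩ := Base.union (s.wl_len u) (s.wl_len u')
      (closed_clos _ _ _) (closed_clos _ _ _) hR1 hR2
      (F := F i₁ (s.hℓ₁ q hq) u ∪ F i₂ (s.hℓ₂ q hq) u')
      (fun r hr => Finset.mem_union_left _ (hF1 _ _ _ r hr))
      (fun r hr => Finset.mem_union_right _ (hF1 _ _ _ r hr))
      (by
        have := Finset.card_union_le (F i₁ (s.hℓ₁ q hq) u) (F i₂ (s.hℓ₂ q hq) u')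
        have := hF2 i₁ (s.hℓ₁ q hq) u
        have := hF2 i₂ (s.hℓ₂ q hq) u'
        have := s.hB
        rw [s.b_len]
        unfold B at *
        omega)
    have hmem : mkPar s.y₀ pdu (s.b.Dw {wl u, wl u'}) s.sg ∈ s.U := by
      refine s.mk_mem hp2 fun r h => Base.Dw_short ?_ h
      rintro _ (rfl | rfl)
      · exact s.wl_len u
      · exact s.wl_len u'
    refine s.hdis _ hmem q ?_
    rw [OO_mk _ hp1]
    constructor
    · obtain ⟨v, hv1, hv2, hv3⟩ := Base.sup_w (s.wl_len u) i₁ q (s.mem_SA.1 hu)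
      exact ⟨v, hv1, (accepts_congr fun r hr => hp3 r (subset_clos (hv3 r hr))).2 hv2⟩
    · obtain ⟨v, hv1, hv2, hv3⟩ := Base.sup_w (s.wl_len u') i₂ q (s.mem_SA.1 hu')
      exact ⟨v, hv1, (accepts_congr fun r hr => hp4 r (subset_clos (hv3 r hr))).2 hv2⟩

theorem unaff_bound {i : ℕ} {q : List Bool} (h : (stm i q).length ≤ s.ℓ) (ht : Tr s.b.O i q) :
    ∃ G : Finset (Fin s.n → Bool), G.card ≤ s.B ∧ ∀ u, u ∉ G → Tr (s.b.Ow (wl u)) i q := by
  obtain ⟨F, hF1, hF2⟩ := s.clos_bound' h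
  obtain ⟨G, hG1, hG2⟩ := hit_count s.b_len F
  refine ⟨G, hG1.trans hF2, fun u hu => Base.unaff_tr (s.wl_len u) (not_not.2 ⟨ht, ?_⟩)⟩
  intro r hr hh
  exact hu (hG2 u ⟨r, hF1 r hr, hh⟩)

/-- the separators of the perturbed worlds agree with that of the base for most words -/
theorem sep_bad {q : List Bool} (hq : q.length ≤ s.m) :
    ∃ G : Finset (Fin s.n → Bool), G.card ≤ 4 * s.B + 2 ∧
      ∀ u, u ∉ G → sep (s.yw u) i₁ i₂ q = sep s.y i₁ i₂ q := by
  classical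
  by_cases hA : Tr s.b.O i₁ q
  · obtain ⟨G, hG1, hG2⟩ := s.unaff_bound (s.hℓ₁ q hq) hA
    refine ⟨G, by omega, fun u hu => ?_⟩
    unfold sep
    rw [s.OO_y, s.OO_yw, if_pos hA, if_pos (hG2 u hu)]
  by_cases hB : Tr s.b.O i₂ q
  · obtain ⟨G, hG1, hG2⟩ := s.unaff_bound (s.hℓ₂ q hq) hB
    refine ⟨G, by omega, fun u hu => ?_⟩
    have h1 : ¬ Tr (s.b.Ow (wl u)) i₁ q := by
      intro h
      refine s.hdis _ (s.yw_mem u) q ?_
      rw [s.OO_yw]
      exact ⟨h, hG2 u hu⟩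
    unfold sep
    rw [s.OO_y, s.OO_yw, if_neg hA, if_pos hB, if_neg h1, if_pos (hG2 u hu)]
  have h0 : sep s.y i₁ i₂ q = s.sg i₁ i₂ q := by
    unfold sep
    rw [s.OO_y, if_neg hA, if_neg hB]
    rfl
  have h1 : ∀ u, ¬ Tr (s.b.Ow (wl u)) i₁ q → ¬ Tr (s.b.Ow (wl u)) i₂ q →
      sep (s.yw u) i₁ i₂ q = s.sg i₁ i₂ q := by
    intro u h1 h2
    unfold sep
    rw [s.OO_yw, if_neg h1, if_neg h2]
    rfl
  rw [h0]
  by_cases hN : q.length ≤ s.N
  · refine ⟨∅, by simp, fun u _ => h1 u ?_ ?_⟩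
    · intro h
      exact hA ((Base.tr_short (Base.agree_w (s.wl_len u))
        ((s.hN₁ q hN).trans_eq s.b_len.symm)).2 h)
    · intro h
      exact hB ((Base.tr_short (Base.agree_w (s.wl_len u))
        ((s.hN₂ q hN).trans_eq s.b_len.symm)).2 h)
  · have hsg : s.sg i₁ i₂ q = (if 2 * s.B + 1 < (s.SA i₁ q).card then true
        else if 2 * s.B + 1 < (s.SA i₂ q).card then false else sgOf s.y₀ i₁ i₂ q) :=
      if_pos ⟨rfl, rfl, not_le.1 hN⟩
    by_cases hSA : 2 * s.B + 1 < (s.SA i₁ q).card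
    · have hSB : ¬ 2 * s.B + 1 < (s.SA i₂ q).card := fun h => s.not_both hq hSA h
      refine ⟨s.SA i₂ q, by omega, fun u hu => ?_⟩
      rw [s.mem_SA] at hu
      by_cases h2 : Tr (s.b.Ow (wl u)) i₁ q
      · unfold sep
        rw [s.OO_yw, if_pos h2, hsg, if_pos hSA]
      · exact h1 u h2 hu
    · refine ⟨s.SA i₁ q ∪ (if 2 * s.B + 1 < (s.SA i₂ q).card then ∅ else s.SA i₂ q), ?_, ?_⟩
      · refine (Finset.card_union_le _ _).trans ?_
        split_ifs
        · simp only [Finset.card_empty]; omega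
        · omega
      · intro u hu
        rw [Finset.mem_union, not_or, s.mem_SA] at hu
        by_cases h2 : Tr (s.b.Ow (wl u)) i₂ q
        · by_cases hSB : 2 * s.B + 1 < (s.SA i₂ q).card
          · unfold sep
            rw [s.OO_yw, if_neg hu.1, if_pos h2, hsg, if_neg hSA, if_pos hSB]
          · rw [if_neg hSB, s.mem_SA] at hu
            exact absurd h2 hu.2
        · exact h1 u hu.1 h2

/-- the joined oracles agree for most words -/
theorem join_bad {r : List Bool} (hr : r.length ≤ s.m) :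
    ∃ G : Finset (Fin s.n → Bool), G.card ≤ 1 + s.m ^ 2 + (4 * s.B + 2) ∧
      ∀ u, u ∉ G → join (OO (s.yw u)) (sep (s.yw u) i₁ i₂) r = join (OO s.y) (sep s.y i₁ i₂) r := by
  match r, hr with
  | [], _ => exact ⟨∅, by simp, fun u _ => rfl⟩
  | false :: r, hr =>
    obtain ⟨F, hF1, hF2⟩ := clos_card s.b.qb s.b.hp s.b.isW {r} s.m fun r' hr' => by
      rw [Finset.mem_singleton.1 hr']
      exact (Nat.le_succ _).trans hr
    obtain ⟨G, hG1, hG2⟩ := hit_count s.b_len F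
    refine ⟨G, ?_, fun u hu => ?_⟩
    · rw [Finset.card_singleton] at hF2
      omega
    · change OO (s.yw u) r = OO s.y r
      rw [s.OO_y, s.OO_yw]
      refine Base.agree_free (s.wl_len u) (closed_clos _ _ {r}) ?_ r
        (subset_clos (Finset.mem_singleton_self r))
      intro r' hr' hh
      exact hu (hG2 u ⟨r', hF1 r' hr', hh⟩)
  | true :: q, hr =>
    obtain ⟨G, hG1, hG2⟩ := s.sep_bad (q := q) ((Nat.le_succ _).trans hr)
    exact ⟨G, by omega, hG2⟩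

theorem good (M : Machine) (v : List Bool) (t : ℕ) (hm : max s.n v.length + t ≤ s.m)
    (hB : t * (1 + s.m ^ 2 + (4 * s.B + 2)) < 2 ^ s.n) :
    ∃ u : Fin s.n → Bool,
      (AcceptsIn (join (OO (s.yw u)) (sep (s.yw u) i₁ i₂)) M s.x₀ v t ↔
        AcceptsIn (join (OO s.y) (sep s.y i₁ i₂)) M s.x₀ v t) := by
  classical
  have hG : ∀ r : List Bool, ∃ G : Finset (Fin s.n → Bool), r.length ≤ s.m →
      (G.card ≤ 1 + s.m ^ 2 + (4 * s.B + 2) ∧ ∀ u, u ∉ G →
      join (OO (s.yw u)) (sep (s.yw u) i₁ i₂) r = join (OO s.y) (sep s.y i₁ i₂) r) := by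
    intro r
    by_cases h : r.length ≤ s.m
    · obtain ⟨G, hG⟩ := s.join_bad h
      exact ⟨G, fun _ => hG⟩
    · exact ⟨∅, fun h' => absurd h' h⟩
  choose G hG using hG
  let A := (asked (join (OO s.y) (sep s.y i₁ i₂)) M t (start M s.x₀ v)).toFinset
  have hA : ∀ r ∈ A, r.length ≤ s.m := by
    intro r hr
    have := asked_start_len _ _ _ _ _ r (List.mem_toFinset.1 hr)
    rw [s.x₀_len] at this
    exact this.trans hm
  have h1 : (A.biUnion G).card < (Finset.univ : Finset (Fin s.n → Bool)).card := by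
    refine (Finset.card_biUnion_le_card_mul _ _ _ fun r hr => (hG r (hA r hr)).1).trans_lt ?_
    rw [Finset.card_univ, Fintype.card_fun, Fintype.card_bool, Fintype.card_fin]
    exact (Nat.mul_le_mul_right _ ((List.toFinset_card_le _).trans (asked_card _ _ _ _))).trans_lt hB
  obtain ⟨u, -, hu⟩ := Finset.exists_mem_notMem_of_card_lt_card h1
  refine ⟨u, accepts_congr fun r hr => ?_⟩
  refine (hG r (hA r (List.mem_toFinset.2 hr))).2 u fun h => hu ?_
  exact Finset.mem_biUnion.2 ⟨r, List.mem_toFinset.2 hr, h⟩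

end Setup

end ESY.Few
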