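import Pool.Agent.Lib.MP_80aaf5_lc.Local
import Pool.Agent.Lib.MP_80aaf5_lc.Growth

/-!
# Oracles that code the true `NP`-statements by one or two pads
-/

namespace ESY.Few

open ESY

/-! ### strings -/

theorem rep_inj {a b : ℕ} {l l' : List Bool}
    (h : List.replicate a true ++ false :: l = List.replicate b true ++ false :: l') :
    a = b ∧ l = l' := by
  induction a generalizing b with
  | zero =>
    cases b with
    | zero => simpa using h
    | succ b => simp [List.replicate_succ] at h
  | succ a ih =>
    cases b with
    | zero => simp [List.replicate_succ] at h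
    | succ b =>
      simp only [List.replicate_succ, List.cons_append, List.cons.injEq, true_and] at h
      obtain ⟨h1, h2⟩ := ih h
      exact ⟨by rw [h1], h2⟩

/-- the string `1^t 0 1^e 0 x` -/
def stmt (t e : ℕ) (x : List Bool) : List Bool :=
  List.replicate t true ++ false :: (List.replicate e true ++ false :: x)

theorem stmt_length (t e : ℕ) (x : List Bool) : (stmt t e x).length = t + 1 + (e + 1 + x.length) := by
  simp [stmt]; ring

theorem stmt_inj {t e t' e' : ℕ} {x x' : List Bool} (h : stmt t e x = stmt t' e' x') :
    t = t' ∧ e = e' ∧ x = x' := by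
  obtain ⟨h1, h2⟩ := rep_inj h
  obtain ⟨h3, h4⟩ := rep_inj h2
  exact ⟨h1, h3, h4⟩

/-- the code string with pad `z` and statement `u` -/
def cs (z u : List Bool) : List Bool := List.replicate z.length true ++ false :: (z ++ u)

theorem cs_length (z u : List Bool) : (cs z u).length = 2 * z.length + 1 + u.length := by
  simp [cs]; ring

theorem cs_inj {z u z' u' : List Bool} (h : cs z u = cs z' u') : z = z' ∧ u = u' := by
  obtain ⟨h1, h2⟩ := rep_inj h
  exact List.append_inj h2 h1

/-! ### statements -/

theorem exists_nu : ∃ f : ℕ → Machine × ℕ, Function.Surjective f := by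
  have : Nonempty (Machine × ℕ) := ⟨(⟨0, 0, fun _ => .halt true⟩, 0)⟩
  exact exists_surjective_nat _

/-- an enumeration of machines with exponents -/
noncomputable def nu : ℕ → Machine × ℕ := exists_nu.choose

theorem nu_surj : Function.Surjective nu := exists_nu.choose_spec

/-- time bound of the statement `(e, x)` -/
noncomputable def tb (e : ℕ) (x : List Bool) : ℕ := poly (nu e).2 x.length

/-- the string of the statement `(e, x)` -/
noncomputable def stm (e : ℕ) (x : List Bool) : List Bool := stmt (tb e x) e x

theorem stm_inj {e e' : ℕ} {x x' : List Bool} (h : stm e x = stm e' x') : e = e' ∧ x = x' :=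
  (stmt_inj h).2

theorem two_le_stm (e : ℕ) (x : List Bool) : 2 ≤ (stm e x).length := by
  rw [stm, stmt_length]; omega

theorem tb_lt_stm (e : ℕ) (x : List Bool) : tb e x < (stm e x).length := by
  rw [stm, stmt_length]; omega

theorem x_lt_stm (e : ℕ) (x : List Bool) : x.length < (stm e x).length := by
  rw [stm, stmt_length]; omega

/-- truth of the statement `(e, x)` relative to `O` -/
def Tr (O : Oracle) (e : ℕ) (x : List Bool) : Prop :=
  ∃ w : List Bool, w.length ≤ tb e x ∧ AcceptsIn O (nu e).1 x w (tb e x)

/-- agreement on short strings -/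
def Agree (m : ℕ) (O O' : Oracle) : Prop := ∀ s : List Bool, s.length ≤ m → O s = O' s

theorem Agree.symm {m : ℕ} {O O' : Oracle} (h : Agree m O O') : Agree m O' O :=
  fun s hs => (h s hs).symm

theorem Agree.mono {m m' : ℕ} {O O' : Oracle} (h : Agree m O O') (hm : m' ≤ m) : Agree m' O O' :=
  fun s hs => h s (hs.trans hm)

theorem asked_start_len (O : Oracle) (M : Machine) (x w : List Bool) (t : ℕ) :
    ∀ s ∈ asked O M t (start M x w), s.length ≤ max x.length w.length + t :=
  asked_len O M t _ _ (start_len M x w _ (le_max_left _ _) (le_max_right _ _))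

theorem accepts_congr {O O' : Oracle} {M : Machine} {x w : List Bool} {t : ℕ}
    (h : ∀ s ∈ asked O M t (start M x w), O' s = O s) :
    AcceptsIn O' M x w t ↔ AcceptsIn O M x w t := by
  unfold AcceptsIn
  rw [run_congr t _ h]

theorem tr_congr {O O' : Oracle} {e : ℕ} {x : List Bool}
    (h : Agree (2 * (stm e x).length) O O') : Tr O e x ↔ Tr O' e x := by
  unfold Tr
  refine exists_congr fun w => and_congr_right fun hw => (accepts_congr fun s hs => ?_).symm
  have h1 := asked_start_len O _ _ _ _ s hs
  have h2 := tb_lt_stm e x
  have h3 := x_lt_stm e x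
  refine (h s ?_).symm
  have : max x.length w.length ≤ (stm e x).length := max_le h3.le (hw.trans h2.le)
  omega

/-! ### worlds -/

/-- two pads for each statement -/
abbrev Pads := ℕ → List Bool → Bool → List Bool

/-- all the pads have the right length -/
def Len (pd : Pads) : Prop := ∀ e x i, (pd e x i).length = (stm e x).length ^ 2

/-- `O` is the oracle with pads `pd` and free part `D` -/
structure IsWorld (pd : Pads) (D O : Oracle) : Prop where
  nil : O [] = false
  free : ∀ w, O (true :: w) = D w
  code : ∀ r, O (false :: r) = true ↔ ∃ e x i, r = cs (pd e x i) (stm e x) ∧ Tr O e x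

open Classical in
/-- approximations of the world -/
noncomputable def val (pd : Pads) (D : Oracle) : ℕ → Oracle
  | 0 => fun _ => false
  | N + 1 => fun r => match r with
    | [] => false
    | true :: w => D w
    | false :: r' => decide (∃ e x i, r' = cs (pd e x i) (stm e x) ∧ Tr (val pd D N) e x)

theorem val_false (pd : Pads) (D : Oracle) (N : ℕ) (r : List Bool) :
    val pd D (N + 1) (false :: r) = true ↔
      ∃ e x i, r = cs (pd e x i) (stm e x) ∧ Tr (val pd D N) e x := by
  classical
  exact decide_eq_true_iff

theorem code_len {pd : Pads} (hp : Len pd) (e : ℕ) (x : List Bool) (i : Bool) :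
    (false :: cs (pd e x i) (stm e x)).length =
      2 * (stm e x).length ^ 2 + (stm e x).length + 2 := by
  rw [List.length_cons, cs_length, hp e x i]; ring

theorem two_stm_lt (e : ℕ) (x : List Bool) :
    2 * (stm e x).length + 2 ≤ 2 * (stm e x).length ^ 2 + (stm e x).length := by
  have := two_le_stm e x
  nlinarith

theorem val_stable {pd : Pads} (hp : Len pd) (D : Oracle) : ∀ (m : ℕ) (r : List Bool),
    r.length ≤ m → ∀ N N', r.length < N → r.length < N' → val pd D N r = val pd D N' r := by
  intro m
  induction m with
  | zero =>
    intro r hr N N' hN hN'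
    have : r = [] := List.length_eq_zero_iff.1 (Nat.le_zero.1 hr)
    subst this
    cases N with
    | zero => simp at hN
    | succ N =>
      cases N' with
      | zero => simp at hN'
      | succ N' => rfl
  | succ m ih =>
    intro r hr N N' hN hN'
    cases N with
    | zero => simp at hN
    | succ N =>
    cases N' with
    | zero => simp at hN'
    | succ N' =>
    match r, hr, hN, hN' with
    | [], _, _, _ => rfl
    | true :: w, _, _, _ => rfl
    | false :: r', hr, hN, hN' =>
      simp only [val]
      congr 1
      refine propext ?_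
      refine exists_congr fun e => exists_congr fun x => exists_congr fun i =>
        and_congr_right fun h => tr_congr fun s hs => ?_
      have h1 := code_len hp e x i
      have h2 := two_stm_lt e x
      rw [← h] at h1
      exact ih s (by omega) _ _ (by omega) (by omega)

/-- the world with pads `pd` and free part `D` -/
noncomputable def world (pd : Pads) (D : Oracle) : Oracle :=
  fun r => val pd D (r.length + 1) r

theorem isWorld {pd : Pads} (hp : Len pd) (D : Oracle) : IsWorld pd D (world pd D) := by
  refine ⟨rfl, fun w => rfl, fun r => ?_⟩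
  have h0 : world pd D (false :: r) = val pd D (r.length + 1 + 1) (false :: r) := rfl
  rw [h0, val_false]
  refine exists_congr fun e => exists_congr fun x => exists_congr fun i =>
    and_congr_right fun h => tr_congr fun s hs => ?_
  have h1 := code_len hp e x i
  have h2 := two_stm_lt e x
  rw [← h] at h1
  simp only [List.length_cons] at h1
  exact val_stable hp D s.length s le_rfl _ _ (by omega) (by omega)

/-- positive code strings -/
theorem IsWorld.code_iff {pd : Pads} {D O : Oracle} (h : IsWorld pd D O) (e : ℕ) (x z : List Bool) :
    O (false :: cs z (stm e x)) = true ↔ (∃ i, z = pd e x i) ∧ Tr O e x := by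
  rw [h.code]
  constructor
  · rintro ⟨e', x', i, h1, h2⟩
    obtain ⟨h3, h4⟩ := cs_inj h1
    obtain ⟨rfl, rfl⟩ := stm_inj h4
    exact ⟨⟨i, h3⟩, h2⟩
  · rintro ⟨⟨i, rfl⟩, h2⟩
    exact ⟨e, x, i, rfl, h2⟩

end ESY.Few
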